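import Pool.Agent.H.MP_60a1a2_co.Lp.Def

/-!
# Forests and linear independence

The finished proof for the field with two elements is in Lb/Ac.lean (adapt it: signs instead of
characteristic 2). PROOF: as there, for a family `i ↦ {a i, b i}`, `i ∈ J`, of different pairs (`pv a c = pv a b + pv b c`, `pv b a = -pv a b`; the
functional `y ↦ ∑ u reachable from a, y u` is `± 1` at the vector of the bridge).
-/

set_option autoImplicit false

open Matroid Module Submodule

namespace Pool.Agent.H.MP_60a1a2_co.Lp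

private theorem Ac_pv_self (K : Type) [Field K] {m : ℕ} (a : Fin m) :
    (pv K a a : Fin m → K) = 0 := by
  unfold pv
  exact sub_self _

private theorem Ac_pv_trans (K : Type) [Field K] {m : ℕ} (a b c : Fin m) :
    (pv K a c : Fin m → K) = pv K a b + pv K b c := by
  unfold pv
  rw [sub_add_sub_cancel]

private theorem Ac_pv_neg (K : Type) [Field K] {m : ℕ} (a b : Fin m) :
    (pv K a b : Fin m → K) = -pv K b a := by
  unfold pv
  rw [neg_sub]

private theorem Ac_walk (K : Type) [Field K] {m : ℕ} {ι : Type} (a b : ι → Fin m) (J : Set ι)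
    {u v : Fin m} (w : (SimpleGraph.fromEdgeSet ((fun i => s(a i, b i)) '' J)).Walk u v) :
    (pv K u v : Fin m → K) ∈ span K ((fun i => pv K (a i) (b i)) '' J) := by
  induction w with
  | nil =>
    rw [Ac_pv_self]
    exact zero_mem _
  | @cons u v w h p ih =>
    rw [Ac_pv_trans K u v w]
    refine add_mem ?_ ih
    obtain ⟨i, hi, h1⟩ := ((SimpleGraph.fromEdgeSet_adj _).1 h).1
    have h3 : pv K (a i) (b i) ∈ span K ((fun i => pv K (a i) (b i)) '' J) :=
      subset_span ⟨i, hi, rfl⟩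
    rcases Sym2.eq_iff.1 h1 with ⟨h4, h5⟩ | ⟨h4, h5⟩
    · rw [← h4, ← h5]
      exact h3
    · rw [Ac_pv_neg, ← h4, ← h5]
      exact neg_mem h3

private theorem Ac_span (K : Type) [Field K] {m : ℕ} {ι : Type} (a b : ι → Fin m) (J : Set ι)
    (hne : ∀ i ∈ J, a i ≠ b i) {u v : Fin m}
    (h : (pv K u v : Fin m → K) ∈ span K ((fun i => pv K (a i) (b i)) '' J)) :
    (SimpleGraph.fromEdgeSet ((fun i => s(a i, b i)) '' J)).Reachable u v := by
  classical
  by_contra hn
  obtain ⟨G, hG⟩ : ∃ G, G = SimpleGraph.fromEdgeSet ((fun i => s(a i, b i)) '' J) := ⟨_, rfl⟩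
  rw [← hG] at hn
  obtain ⟨φ, hφ⟩ : ∃ φ : (Fin m → K) →ₗ[K] K,
      ∀ c, φ (Pi.single c 1) = if G.Reachable u c then 1 else 0 := by
    refine ⟨∑ w ∈ Finset.univ.filter (fun w => G.Reachable u w),
      LinearMap.proj w, fun c => ?_⟩
    rw [LinearMap.sum_apply]
    by_cases hc : G.Reachable u c
    · rw [if_pos hc, Finset.sum_eq_single c]
      · exact Pi.single_eq_same c 1
      · intro w _ hw
        exact Pi.single_eq_of_ne hw 1
      · intro h0
        exact absurd (Finset.mem_filter.2 ⟨Finset.mem_univ _, hc⟩) h0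
    · rw [if_neg hc]
      refine Finset.sum_eq_zero fun w hw => ?_
      refine Pi.single_eq_of_ne (fun h0 => hc ?_) 1
      rw [← h0]
      exact (Finset.mem_filter.1 hw).2
  have hz : span K ((fun i => pv K (a i) (b i)) '' J) ≤ LinearMap.ker φ := by
    rw [span_le]
    rintro _ ⟨i, hi, rfl⟩
    have hadj : G.Adj (a i) (b i) := by
      rw [hG]
      exact (SimpleGraph.fromEdgeSet_adj _).2 ⟨⟨i, hi, rfl⟩, hne i hi⟩
    show φ (Pi.single (a i) 1 - Pi.single (b i) 1) = 0
    rw [map_sub, hφ, hφ]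
    by_cases hc : G.Reachable u (a i)
    · rw [if_pos hc, if_pos (hc.trans hadj.reachable), sub_self]
    · rw [if_neg hc, if_neg (fun h0 => hc (h0.trans hadj.symm.reachable)), sub_self]
  have h1 : φ (Pi.single u 1 - Pi.single v 1) = 0 := hz h
  rw [map_sub, hφ, hφ, if_pos (SimpleGraph.Reachable.refl u), if_neg hn, sub_zero] at h1
  exact one_ne_zero h1

theorem ac_iff (K : Type) [Field K] {m : ℕ} {ι : Type} (a b : ι → Fin m) (J : Set ι)
    (hne : ∀ i ∈ J, a i ≠ b i) (hinj : Set.InjOn (fun i => s(a i, b i)) J) :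
    (SimpleGraph.fromEdgeSet ((fun i => s(a i, b i)) '' J)).IsAcyclic ↔
      LinearIndepOn K (fun i => pv K (a i) (b i)) J := by
  rw [SimpleGraph.isAcyclic_iff_forall_isBridge, linearIndepOn_iff_notMem_span]
  have hkey : ∀ i ∈ J, (SimpleGraph.fromEdgeSet ((fun i => s(a i, b i)) '' J)).IsBridge
      s(a i, b i) ↔ pv K (a i) (b i) ∉ span K ((fun i => pv K (a i) (b i)) '' (J \ {i})) := by
    intro i hi
    have hs : ((fun i => s(a i, b i)) '' J) \ {s(a i, b i)} =
        (fun i => s(a i, b i)) '' (J \ {i}) := by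
      ext x
      constructor
      · rintro ⟨⟨j, hj, h1⟩, h2⟩
        refine ⟨j, ⟨hj, fun h3 => h2 ?_⟩, h1⟩
        have h4 : j = i := h3
        subst h4
        exact h1.symm
      · rintro ⟨j, ⟨hj, h1⟩, h2⟩
        refine ⟨⟨j, hj, h2⟩, fun h3 => h1 ?_⟩
        have h4 : x = s(a i, b i) := h3
        exact hinj hj hi (h2.trans h4)
    rw [SimpleGraph.isBridge_iff, SimpleGraph.deleteEdges_fromEdgeSet, hs]
    refine not_congr ⟨fun h => ?_, fun h => ?_⟩
    · obtain ⟨w⟩ := h
      exact Ac_walk K a b _ w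
    · exact Ac_span K a b _ (fun j hj => hne j hj.1) h
  constructor
  · intro h i hi
    refine (hkey i hi).1 (h ?_)
    rw [SimpleGraph.edgeSet_fromEdgeSet]
    exact ⟨⟨i, hi, rfl⟩, fun h0 => hne i hi h0⟩
  · intro h e he
    rw [SimpleGraph.edgeSet_fromEdgeSet] at he
    obtain ⟨⟨i, hi, rfl⟩, -⟩ := he
    exact (hkey i hi).2 (h i hi)

end Pool.Agent.H.MP_60a1a2_co.Lp
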