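import Pool.Agent.H.MP_60a1a2_co.Lp.Def

/-!
# Simple minors of the dual of the cycle matroid are small

The finished proof for the field with two elements is in Lb/Cc.lean (adapt it: signs instead of
characteristic 2). PROOF: as there; `h1` now says that `cv e`, `cv f` are linearly independent modulo `span (cv '' C)`. `cob K N 1_K e` is `± 1` if exactly one end of
`e` is in the class, otherwise `0`.
-/

set_option autoImplicit false

open Matroid Module Submodule

namespace Pool.Agent.H.MP_60a1a2_co.Lp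

section

variable (K : Type) [Field K] {N : ℕ}

private theorem Cc_mk (a : Ed N → K) :
    (Submodule.Quotient.mk a : Bs K N) = ∑ e, a e • cv K e := by
  classical
  have h : a = ∑ e, a e • (Pi.single e 1 : Ed N → K) := by
    funext x
    rw [Finset.sum_apply, Finset.sum_eq_single x]
    · simp
    · intro b _ hb
      rw [Pi.smul_apply, Pi.single_eq_of_ne (Ne.symm hb), smul_zero]
    · intro hx
      exact absurd (Finset.mem_univ x) hx
  conv_lhs => rw [h]
  rw [← Submodule.mkQ_apply, map_sum]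
  exact Finset.sum_congr rfl fun e _ => by rw [map_smul]; rfl

/-- the equivalence of vertices -/
private def Cc_r (C : Set (Ed N)) (P : Finset (Ed N)) : Setoid (Fin N) where
  r x y := ∀ s : Fin N → K, (∀ e : Ed N, e ∉ C → e ∉ P → s e.1.1 = s e.1.2) → s x = s y
  iseqv := ⟨fun _ _ _ => rfl, fun h s hs => (h s hs).symm, fun h1 h2 s hs =>
    (h1 s hs).trans (h2 s hs)⟩

/-- the restricted coboundary of the functions on the classes -/
private def Cc_rho (C : Set (Ed N)) (P : Finset (Ed N)) :
    (Quotient (Cc_r K C P) → K) →ₗ[K] (P → K) where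
  toFun t e := t (Quotient.mk _ e.1.1.1) - t (Quotient.mk _ e.1.1.2)
  map_add' s s' := by
    funext e
    simp only [Pi.add_apply]
    ring
  map_smul' a s := by
    funext e
    simp only [Pi.smul_apply, smul_eq_mul, RingHom.id_apply]
    ring

private theorem Cc_rho_apply (C : Set (Ed N)) (P : Finset (Ed N)) (t : Quotient (Cc_r K C P) → K)
    (e : P) : Cc_rho K C P t e = t (Quotient.mk _ e.1.1.1) - t (Quotient.mk _ e.1.1.2) := rfl

private theorem Cc_A (C : Set (Ed N)) (P : Finset (Ed N)) (t : Quotient (Cc_r K C P) → K) :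
    ∑ e : P, Cc_rho K C P t e • cv K e.1 ∈ span K (cv K '' C) := by
  classical
  obtain ⟨s, hs⟩ : ∃ s : Fin N → K, ∀ x, s x = t (Quotient.mk _ x) := ⟨_, fun _ => rfl⟩
  have h0 : ∀ e : Ed N, e ∉ C → e ∉ P → cob K N s e = 0 := by
    intro e h1 h2
    have h3 : (Quotient.mk (Cc_r K C P) e.1.1) = Quotient.mk (Cc_r K C P) e.1.2 :=
      Quotient.sound fun s' hs' => hs' e h1 h2
    show s e.1.1 - s e.1.2 = 0
    rw [hs, hs, h3]
    exact sub_self _
  have h1 : (Submodule.Quotient.mk (cob K N s) : Bs K N) = 0 :=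
    (Submodule.Quotient.mk_eq_zero _).2 ⟨s, rfl⟩
  rw [Cc_mk K, ← Finset.sum_filter_add_sum_filter_not Finset.univ (fun e => e ∈ P)] at h1
  have h2 : ∑ e ∈ Finset.univ.filter (fun e : Ed N => e ∈ P), cob K N s e • (cv K e : Bs K N) =
      ∑ e : P, Cc_rho K C P t e • cv K e.1 := by
    rw [Finset.filter_mem_eq_inter, Finset.univ_inter, ← Finset.sum_coe_sort P]
    refine Finset.sum_congr rfl fun e _ => ?_
    rw [Cc_rho_apply, ← hs, ← hs]
    rfl
  have h3 : ∑ e ∈ Finset.univ.filter (fun e : Ed N => ¬ e ∈ P), cob K N s e • (cv K e : Bs K N) ∈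
      span K (cv K '' C) := by
    refine Submodule.sum_mem _ fun e he => ?_
    by_cases hC : e ∈ C
    · exact Submodule.smul_mem _ _ (Submodule.subset_span ⟨e, hC, rfl⟩)
    · rw [h0 e hC (Finset.mem_filter.1 he).2, zero_smul]
      exact Submodule.zero_mem _
  rw [← h2]
  rw [eq_neg_of_add_eq_zero_left h1]
  exact Submodule.neg_mem _ h3

private theorem Cc_lift {C : Set (Ed N)} {l : Bs K N} (hl : l ∈ span K (cv K '' C)) :
    ∃ b : Ed N → K, (∀ e, e ∉ C → b e = 0) ∧ (Submodule.Quotient.mk b : Bs K N) = l := by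
  classical
  induction hl using Submodule.span_induction with
  | mem x hx =>
    obtain ⟨e, he, rfl⟩ := hx
    refine ⟨Pi.single e 1, fun f hf => ?_, rfl⟩
    refine Pi.single_eq_of_ne ?_ _
    rintro rfl
    exact hf he
  | zero => exact ⟨0, fun _ _ => rfl, rfl⟩
  | add x y _ _ hx hy =>
    obtain ⟨a, ha, rfl⟩ := hx
    obtain ⟨b, hb, rfl⟩ := hy
    refine ⟨a + b, fun e he => ?_, rfl⟩
    rw [Pi.add_apply, ha e he, hb e he, add_zero]
  | smul c x _ hx =>
    obtain ⟨a, ha, rfl⟩ := hx
    refine ⟨c • a, fun e he => ?_, rfl⟩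
    rw [Pi.smul_apply, ha e he, smul_zero]

private theorem Cc_B (C : Set (Ed N)) (P : Finset (Ed N)) (hCP : ∀ e ∈ P, e ∉ C) (a : P → K)
    (ha : ∑ e : P, a e • cv K e.1 ∈ span K (cv K '' C)) : a ∈ LinearMap.range (Cc_rho K C P) := by
  classical
  obtain ⟨b, hb, hb2⟩ := Cc_lift K ha
  obtain ⟨a', ha'⟩ : ∃ a' : Ed N → K, ∀ e, a' e = if h : e ∈ P then a ⟨e, h⟩ else 0 :=
    ⟨_, fun _ => rfl⟩
  have h1 : (Submodule.Quotient.mk a' : Bs K N) = ∑ e : P, a e • cv K e.1 := by
    rw [Cc_mk K, ← Finset.sum_filter_add_sum_filter_not Finset.univ (fun e => e ∈ P)]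
    have h2 : ∑ e ∈ Finset.univ.filter (fun e : Ed N => ¬ e ∈ P), a' e • (cv K e : Bs K N) = 0 := by
      refine Finset.sum_eq_zero fun e he => ?_
      rw [ha', dif_neg (Finset.mem_filter.1 he).2, zero_smul]
    rw [h2, add_zero, Finset.filter_mem_eq_inter, Finset.univ_inter, ← Finset.sum_coe_sort P]
    refine Finset.sum_congr rfl fun e _ => ?_
    rw [ha', dif_pos e.2]
  have h3 : (Submodule.Quotient.mk (a' - b) : Bs K N) = 0 := by
    rw [Submodule.Quotient.mk_sub, h1, hb2, sub_self]
  rw [Submodule.Quotient.mk_eq_zero] at h3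
  obtain ⟨s, hs⟩ := h3
  have hs' : ∀ e : Ed N, s e.1.1 - s e.1.2 = a' e - b e := fun e => congrFun hs e
  have h4 : ∀ e : Ed N, e ∉ C → e ∉ P → s e.1.1 = s e.1.2 := by
    intro e h5 h6
    have h7 := hs' e
    rw [ha', dif_neg h6, hb e h5, sub_zero] at h7
    exact sub_eq_zero.1 h7
  refine ⟨Quotient.lift s fun x y h => h s h4, ?_⟩
  funext e
  rw [Cc_rho_apply]
  have h5 := hs' e.1
  rw [ha', dif_pos e.2, hb e.1 (hCP e.1 e.2), sub_zero] at h5
  exact h5

private theorem Cc_sum (P : Finset (Ed N)) (v : P → K) [DecidablePred fun e => v e ≠ 0] :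
    ∑ e : P, v e • (cv K e.1 : Bs K N) =
    ∑ e ∈ Finset.univ.filter (fun e : P => v e ≠ 0), v e • (cv K e.1 : Bs K N) := by
  classical
  rw [Finset.sum_filter]
  refine Finset.sum_congr rfl fun e _ => ?_
  by_cases h : v e = 0
  · rw [if_neg (not_not.2 h), h, zero_smul]
  · rw [if_pos h]

end

theorem cnt_c (K : Type) [Field K] {N d : ℕ} (C : Set (Ed N)) (P : Finset (Ed N))
    (h0 : ∀ e ∈ P, cv K e ∉ span K (cv K '' C))
    (h1 : ∀ e ∈ P, ∀ f ∈ P, e ≠ f → ∀ a b : K,
      a • cv K e + b • cv K f ∈ span K (cv K '' C) → a = 0 ∧ b = 0)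
    (hd : finrank K (span K (cv K '' (C ∪ (P : Set (Ed N))))) ≤
      finrank K (span K (cv K '' C)) + d) :
    P.card ≤ 3 * d := by
  classical
  have hCP : ∀ e ∈ P, e ∉ C := fun e he hC => h0 e he (Submodule.subset_span ⟨e, hC, rfl⟩)
  have hfq : Fintype (Quotient (Cc_r K C P)) := Fintype.ofFinite _
  obtain ⟨w, hw⟩ : ∃ w : Quotient (Cc_r K C P) → P → K,
      ∀ q, w q = Cc_rho K C P (Pi.single q 1) := ⟨_, fun _ => rfl⟩
  obtain ⟨B, hB⟩ : ∃ B, B = Finset.univ.filter (fun q => w q ≠ 0) := ⟨_, rfl⟩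
  -- the dimension of the range
  have hC1 : finrank K (LinearMap.range (Cc_rho K C P)) ≤ B.card := by
    refine le_trans ?_ (Finset.card_image_le (s := B) (f := w))
    refine le_trans (Submodule.finrank_mono ?_)
      (finrank_span_finset_le_card (R := K) (B.image w))
    rintro _ ⟨t, rfl⟩
    have h2 : t = ∑ q, t q • (Pi.single q 1 : Quotient (Cc_r K C P) → K) := by
      funext x
      rw [Finset.sum_apply, Finset.sum_eq_single x]
      · simp
      · intro b _ hb
        rw [Pi.smul_apply, Pi.single_eq_of_ne (Ne.symm hb), smul_zero]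
      · intro hx
        exact absurd (Finset.mem_univ x) hx
    rw [h2, map_sum]
    refine Submodule.sum_mem _ fun q _ => ?_
    rw [map_smul, ← hw]
    refine Submodule.smul_mem _ _ ?_
    by_cases hq : w q = 0
    · rw [hq]
      exact Submodule.zero_mem _
    · refine Submodule.subset_span ?_
      rw [Finset.mem_coe, Finset.mem_image]
      exact ⟨q, by rw [hB]; simpa using hq, rfl⟩
  -- the degrees
  have hD : ∀ q ∈ B, 3 ≤ (Finset.univ.filter (fun e : P => w q e ≠ 0)).card := by
    intro q hq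
    rw [hB, Finset.mem_filter] at hq
    have hA := Cc_A K C P (Pi.single q 1)
    rw [← hw, Cc_sum K] at hA
    by_contra hlt
    have hc : (Finset.univ.filter (fun e : P => w q e ≠ 0)).card = 0 ∨
        (Finset.univ.filter (fun e : P => w q e ≠ 0)).card = 1 ∨
        (Finset.univ.filter (fun e : P => w q e ≠ 0)).card = 2 := by omega
    rcases hc with hc | hc | hc
    · rw [Finset.card_eq_zero] at hc
      apply hq.2
      funext e
      by_contra he
      have : e ∈ (Finset.univ.filter (fun e : P => w q e ≠ 0)) := by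
        rw [Finset.mem_filter]
        exact ⟨Finset.mem_univ _, he⟩
      rw [hc] at this
      exact absurd this (Finset.notMem_empty e)
    · obtain ⟨e, he⟩ := Finset.card_eq_one.1 hc
      have hwe : w q e ≠ 0 := by
        have h5 : e ∈ Finset.univ.filter (fun e : P => w q e ≠ 0) := by
          rw [he]
          exact Finset.mem_singleton_self e
        exact (Finset.mem_filter.1 h5).2
      rw [he, Finset.sum_singleton] at hA
      have h6 := Submodule.smul_mem _ (w q e)⁻¹ hA
      rw [smul_smul, inv_mul_cancel₀ hwe, one_smul] at h6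
      exact h0 e.1 e.2 h6
    · obtain ⟨e, f, hef, he⟩ := Finset.card_eq_two.1 hc
      have hwe : w q e ≠ 0 := by
        have h5 : e ∈ Finset.univ.filter (fun e : P => w q e ≠ 0) := by
          rw [he]
          exact Finset.mem_insert_self e _
        exact (Finset.mem_filter.1 h5).2
      rw [he, Finset.sum_pair hef] at hA
      exact hwe (h1 e.1 e.2 f.1 f.2 (fun h => hef (Subtype.ext h)) _ _ hA).1
  have hE : ∑ q, (Finset.univ.filter (fun e : P => w q e ≠ 0)).card ≤ 2 * P.card := by
    have h2 := Finset.sum_card_bipartiteAbove_eq_sum_card_bipartiteBelow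
      (s := (Finset.univ : Finset (Quotient (Cc_r K C P)))) (t := (Finset.univ : Finset P))
      (fun q e => w q e ≠ 0)
    unfold Finset.bipartiteAbove Finset.bipartiteBelow at h2
    rw [h2]
    have h3 : ∀ e ∈ (Finset.univ : Finset P),
        (Finset.univ.filter (fun q => w q e ≠ 0)).card ≤ 2 := by
      intro e _
      refine le_trans (Finset.card_le_card (t := {Quotient.mk (Cc_r K C P) e.1.1.1,
        Quotient.mk (Cc_r K C P) e.1.1.2}) ?_) Finset.card_le_two
      intro q hq
      rw [Finset.mem_filter, hw, Cc_rho_apply] at hq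
      rw [Finset.mem_insert, Finset.mem_singleton]
      by_contra hcon
      rw [not_or] at hcon
      apply hq.2
      rw [Pi.single_eq_of_ne (Ne.symm hcon.1), Pi.single_eq_of_ne (Ne.symm hcon.2), sub_zero]
    refine (Finset.sum_le_card_nsmul _ _ 2 h3).trans ?_
    rw [Finset.card_univ, Fintype.card_coe, smul_eq_mul, mul_comm]
  have hF : 3 * B.card ≤ 2 * P.card := by
    refine le_trans ?_ hE
    refine le_trans ?_ (Finset.sum_le_sum_of_subset (Finset.subset_univ B))
    have h2 := Finset.card_nsmul_le_sum B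
      (fun q => (Finset.univ.filter (fun e : P => w q e ≠ 0)).card) 3 hD
    rw [smul_eq_mul, mul_comm] at h2
    exact h2
  -- the ranks
  obtain ⟨Ψ, hΨ⟩ : ∃ Ψ : ((P → K) × span K ((cv K : Ed N → Bs K N) '' C)) →ₗ[K] Bs K N,
      ∀ x, Ψ x = ∑ e : P, x.1 e • cv K e.1 + x.2 :=
    ⟨LinearMap.coprod (Fintype.linearCombination K (fun e : P => (cv K e.1 : Bs K N)))
      (Submodule.subtype _), fun x => rfl⟩
  have hG := LinearMap.finrank_range_add_finrank_ker Ψ
  rw [Module.finrank_prod, Module.finrank_fintype_fun_eq_card, Fintype.card_coe] at hG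
  have hR : finrank K (LinearMap.range Ψ) ≤
      finrank K (span K ((cv K : Ed N → Bs K N) '' (C ∪ (P : Set (Ed N))))) := by
    refine Submodule.finrank_mono ?_
    rintro _ ⟨x, rfl⟩
    rw [hΨ]
    refine Submodule.add_mem _ (Submodule.sum_mem _ fun e _ => ?_) ?_
    · exact Submodule.smul_mem _ _ (Submodule.subset_span ⟨e.1, Or.inr e.2, rfl⟩)
    · exact Submodule.span_mono (Set.image_mono Set.subset_union_left) x.2.2
  have hK : finrank K (LinearMap.ker Ψ) ≤ finrank K (LinearMap.range (Cc_rho K C P)) := by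
    obtain ⟨j, hj⟩ : ∃ j : LinearMap.ker Ψ →ₗ[K] (P → K), ∀ x, j x = x.1.1 :=
      ⟨(LinearMap.fst K _ _).comp (Submodule.subtype _), fun _ => rfl⟩
    have hinj : Function.Injective j := by
      intro x y hxy
      rw [hj, hj] at hxy
      have hx := LinearMap.mem_ker.1 x.2
      have hy := LinearMap.mem_ker.1 y.2
      rw [hΨ] at hx hy
      rw [hxy] at hx
      apply Subtype.ext
      refine Prod.ext hxy (Subtype.ext ?_)
      have h2 := hx.trans hy.symm
      exact add_left_cancel h2
    rw [← LinearMap.finrank_range_of_inj hinj]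
    refine Submodule.finrank_mono ?_
    rintro _ ⟨x, rfl⟩
    rw [hj]
    apply Cc_B K C P hCP
    have hx := LinearMap.mem_ker.1 x.2
    rw [hΨ] at hx
    rw [eq_neg_of_add_eq_zero_left hx]
    exact Submodule.neg_mem _ x.1.2.2
  omega

end Pool.Agent.H.MP_60a1a2_co.Lp
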