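import Pool.Agent.H.MP_60a1a2_co.Lp.Def

/-!
# Projective geometries determine the characteristic

The finished proof for the field with two elements is in Lb/Chr.lean (adapt it: signs instead of
characteristic 2). PROOF: new (there is no file Lb/Chr). For `x ≠ 0` let `y x` be the vector of the point of `x`. `h`: linearly independent sets of
points correspond. So: (i) if `x, z` are independent and `u = α x + β z ≠ 0` then `y u ∈ span {y x, y z}` (if `u` is not one of the two points then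
`{x, z, u}` is a dependent set of points and `{x, z}` an independent one); the same for three vectors. Let `e0, e1, e2` be the first
unit vectors (`2 ≤ k`). `y e0, y e1, y e2` are independent and `y (e0 + e1 + e2)` is a combination of them with nonzero coefficients (any
three of the four points are independent): scale to `a, b, c` with `span {a} = span {y e0}` etc. and `y (e0 + e1 + e2) = a + b + c`.
`y (e1 + e2) ∈ span {b, c} ⊓ span {a, a + b + c} = span {b + c}`; `y (e0 + e2) ∈ span {a, c} ⊓ span {b, a + b + c} = span {a + c}`. Claim, for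
all natural numbers `j`: `y (e0 + j e1) ∈ span {a + j b}`. `j = 0` is clear. `j → j + 1`: `y (e0 + (j+1) e1 + e2)` is in `span {a + j b, b + c}` (as
`(e0 + j e1) + (e1 + e2)`) and in `span {a + c, b}` (as `(e0 + e2) + (j+1) e1`), so it is a multiple of `a + (j+1) b + c`; and
`y (e0 + (j+1) e1)` is in `span {c, that}` and in `span {a, b}`, so it is a multiple of `a + (j+1) b`. For `j = r`: `e0 + r e1 = e0`, so
`y e0 ≠ 0` is a multiple of `a + r b` and of `a`: `r b = 0`, `(r : K) = 0`.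
-/

set_option autoImplicit false

open Matroid Module Submodule

namespace Pool.Agent.H.MP_60a1a2_co.Lp

section Chr_aux

variable {K : Type} [Field K] {W : Type} [AddCommGroup W] [Module K W] {F : Type} [Field F]
  {V : Type} [AddCommGroup V] [Module F V]

/-- The closure operators correspond (points). -/
private theorem Chr_pts {y : Projectivization F V → W}
    (h : ∀ I : Set (Projectivization F V),
      LinearIndepOn K y I ↔ LinearIndepOn F Projectivization.rep I)
    (P : Set (Projectivization F V)) (q : Projectivization F V) :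
    y q ∈ span K (y '' P) ↔ q.rep ∈ span F (Projectivization.rep '' P) := by
  obtain ⟨P0, hP0, -, hsp, hind⟩ := exists_linearIndepOn_extension
    (linearIndepOn_empty F (Projectivization.rep : Projectivization F V → V)) (Set.empty_subset P)
  have hindK : LinearIndepOn K y P0 := (h P0).2 hind
  have key : ∀ q, y q ∈ span K (y '' P0) ↔ q.rep ∈ span F (Projectivization.rep '' P0) := by
    intro q
    rw [hindK.mem_span_iff, hind.mem_span_iff, h]
  have hF : span F (Projectivization.rep '' P) = span F (Projectivization.rep '' P0) :=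
    le_antisymm (span_le.2 hsp) (span_mono (Set.image_mono hP0))
  have hK : span K (y '' P) = span K (y '' P0) := by
    refine le_antisymm (span_le.2 ?_) (span_mono (Set.image_mono hP0))
    rintro _ ⟨q, hq, rfl⟩
    exact (key q).2 (hsp ⟨q, hq, rfl⟩)
  rw [hF, hK, key]

open Classical in
/-- The vector of the point of `x`. -/
private noncomputable def Chr_Y (y : Projectivization F V → W) (x : V) : W :=
  if hx : x = 0 then 0 else y (Projectivization.mk F x hx)

/-- The closure operators correspond (vectors). -/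
private theorem Chr_vec {y : Projectivization F V → W}
    (h : ∀ I : Set (Projectivization F V),
      LinearIndepOn K y I ↔ LinearIndepOn F Projectivization.rep I)
    (X : Set V) (u : V) : Chr_Y y u ∈ span K (Chr_Y y '' X) ↔ u ∈ span F X := by
  classical
  have hY : ∀ (x : V) (hx : x ≠ 0), Chr_Y y x = y (Projectivization.mk F x hx) :=
    fun x hx => dif_neg hx
  have hY0 : Chr_Y y (0 : V) = 0 := dif_pos rfl
  obtain ⟨P, hP⟩ : ∃ P : Set (Projectivization F V), ∀ q, q ∈ P ↔
      ∃ x, ∃ hx : x ≠ 0, x ∈ X ∧ Projectivization.mk F x hx = q :=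
    ⟨{q | ∃ x, ∃ hx : x ≠ 0, x ∈ X ∧ Projectivization.mk F x hx = q}, fun q => Iff.rfl⟩
  have hF : span F (Projectivization.rep '' P) = span F X := by
    apply le_antisymm
    · refine span_le.2 ?_
      rintro _ ⟨q, hq, rfl⟩
      obtain ⟨x, hx, hxX, rfl⟩ := (hP q).1 hq
      obtain ⟨a, ha⟩ := Projectivization.exists_smul_eq_mk_rep F x hx
      rw [SetLike.mem_coe, ← ha]
      exact smul_mem _ (a : F) (subset_span hxX)
    · refine span_le.2 fun x hxX => ?_
      by_cases hx : x = 0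
      · rw [hx]
        exact zero_mem _
      · obtain ⟨a, ha⟩ := Projectivization.exists_smul_eq_mk_rep F x hx
        have h1 : x = ((a⁻¹ : Fˣ) : F) • (Projectivization.mk F x hx).rep := by
          rw [← ha, Units.smul_def, smul_smul, Units.inv_mul, one_smul]
        rw [h1]
        exact smul_mem _ _ (subset_span ⟨_, (hP _).2 ⟨x, hx, hxX, rfl⟩, rfl⟩)
  have hK : span K (y '' P) = span K (Chr_Y y '' X) := by
    apply le_antisymm
    · refine span_le.2 ?_
      rintro _ ⟨q, hq, rfl⟩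
      obtain ⟨x, hx, hxX, rfl⟩ := (hP q).1 hq
      rw [← hY x hx]
      exact subset_span ⟨x, hxX, rfl⟩
    · refine span_le.2 ?_
      rintro _ ⟨x, hxX, rfl⟩
      by_cases hx : x = 0
      · rw [hx, hY0]
        exact zero_mem _
      · rw [hY x hx]
        exact subset_span ⟨_, (hP _).2 ⟨x, hx, hxX, rfl⟩, rfl⟩
  by_cases hu : u = 0
  · rw [hu, hY0]
    exact ⟨fun _ => zero_mem _, fun _ => zero_mem _⟩
  · rw [hY u hu, ← hK, Chr_pts h, hF]
    obtain ⟨a, ha⟩ := Projectivization.exists_smul_eq_mk_rep F u hu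
    rw [← ha, Units.smul_def]
    exact smul_mem_iff _ a.ne_zero

/-- Independence of three vectors. -/
private theorem Chr_ind {P Q R : W} (h : ∀ p q : K, P ≠ p • Q + q • R) (x y z : K)
    (h0 : x • P + y • Q + z • R = 0) : x = 0 := by
  by_contra hx
  refine h (-(y / x)) (-(z / x)) ?_
  have h1 : x • P = -(y • Q) - z • R := by
    rw [← sub_eq_zero]
    rw [← h0]
    module
  calc P = x⁻¹ • (x • P) := by rw [smul_smul, inv_mul_cancel₀ hx, one_smul]
    _ = x⁻¹ • (-(y • Q) - z • R) := by rw [h1]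
    _ = (-(y / x)) • Q + (-(z / x)) • R := by
        rw [div_eq_mul_inv, div_eq_mul_inv]
        module

/-- The construction. -/
private theorem Chr_abs {Y : V → W}
    (hE : ∀ (X : Set V) (u : V), Y u ∈ span K (Y '' X) ↔ u ∈ span F X) {e0 e1 e2 : V}
    (h0 : e0 ∉ span F {e1, e2}) (h1 : e1 ∉ span F {e0, e2}) (h2 : e2 ∉ span F {e0, e1})
    (r : ℕ) (hr : r • e1 = 0) : (r : K) = 0 := by
  -- pairs
  have hp : ∀ {x z u : V}, u ∈ span F {x, z} → ∃ p q : K, Y u = p • Y x + q • Y z := by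
    intro x z u hu
    have h3 := (hE {x, z} u).2 hu
    rw [Set.image_pair, mem_span_pair] at h3
    obtain ⟨p, q, h4⟩ := h3
    exact ⟨p, q, h4.symm⟩
  have hn : ∀ {x z u : V}, u ∉ span F {x, z} → ∀ p q : K, Y u ≠ p • Y x + q • Y z := by
    intro x z u hu p q h3
    refine hu ((hE {x, z} u).1 ?_)
    rw [Set.image_pair, mem_span_pair]
    exact ⟨p, q, h3.symm⟩
  -- the vectors `A, B, C` and `D`
  obtain ⟨A, hA⟩ : ∃ A, A = Y e0 := ⟨_, rfl⟩
  obtain ⟨B, hB⟩ : ∃ B, B = Y e1 := ⟨_, rfl⟩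
  obtain ⟨C, hC⟩ : ∃ C, C = Y e2 := ⟨_, rfl⟩
  have iA : ∀ p q : K, A ≠ p • B + q • C := by
    rw [hA, hB, hC]
    exact hn h0
  have iB : ∀ p q : K, B ≠ p • A + q • C := by
    rw [hA, hB, hC]
    exact hn h1
  have iC : ∀ p q : K, C ≠ p • A + q • B := by
    rw [hA, hB, hC]
    exact hn h2
  obtain ⟨α, β, γ, hD⟩ : ∃ α β γ : K, Y (e0 + e1 + e2) = α • A + β • B + γ • C := by
    obtain ⟨p, q, h3⟩ := hp (x := e1) (z := e2) (u := e1 + e2)
      (mem_span_pair.2 ⟨1, 1, by rw [one_smul, one_smul]⟩)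
    obtain ⟨s, t, h4⟩ := hp (x := e0) (z := e1 + e2) (u := e0 + e1 + e2)
      (mem_span_pair.2 ⟨1, 1, by rw [one_smul, one_smul, add_assoc]⟩)
    refine ⟨s, t * p, t * q, ?_⟩
    rw [h4, h3, ← hA, ← hB, ← hC]
    module
  have hα : α ≠ 0 := by
    intro h3
    have h4 : e0 + e1 + e2 ∉ span F {e1, e2} := by
      intro h5
      apply h0
      have h6 : e0 = (e0 + e1 + e2) - ((1 : F) • e1 + (1 : F) • e2) := by
        rw [one_smul, one_smul]
        abel
      rw [h6]
      exact sub_mem h5 (mem_span_pair.2 ⟨1, 1, rfl⟩)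
    refine hn h4 β γ ?_
    rw [hD, h3, ← hB, ← hC]
    module
  have hβ : β ≠ 0 := by
    intro h3
    have h4 : e0 + e1 + e2 ∉ span F {e0, e2} := by
      intro h5
      apply h1
      have h6 : e1 = (e0 + e1 + e2) - ((1 : F) • e0 + (1 : F) • e2) := by
        rw [one_smul, one_smul]
        abel
      rw [h6]
      exact sub_mem h5 (mem_span_pair.2 ⟨1, 1, rfl⟩)
    refine hn h4 α γ ?_
    rw [hD, h3, ← hA, ← hC]
    module
  have hγ : γ ≠ 0 := by
    intro h3
    have h4 : e0 + e1 + e2 ∉ span F {e0, e1} := by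
      intro h5
      apply h2
      have h6 : e2 = (e0 + e1 + e2) - ((1 : F) • e0 + (1 : F) • e1) := by
        rw [one_smul, one_smul]
        abel
      rw [h6]
      exact sub_mem h5 (mem_span_pair.2 ⟨1, 1, rfl⟩)
    refine hn h4 α β ?_
    rw [hD, h3, ← hA, ← hB]
    module
  obtain ⟨a, ha⟩ : ∃ a, a = α • A := ⟨_, rfl⟩
  obtain ⟨b, hb⟩ : ∃ b, b = β • B := ⟨_, rfl⟩
  obtain ⟨c, hc⟩ : ∃ c, c = γ • C := ⟨_, rfl⟩
  have hA' : A = α⁻¹ • a := by rw [ha, smul_smul, inv_mul_cancel₀ hα, one_smul]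
  have hB' : B = β⁻¹ • b := by rw [hb, smul_smul, inv_mul_cancel₀ hβ, one_smul]
  have hC' : C = γ⁻¹ • c := by rw [hc, smul_smul, inv_mul_cancel₀ hγ, one_smul]
  rw [← ha, ← hb, ← hc] at hD
  have hL : ∀ x y z : K, x • a + y • b + z • c = 0 → x = 0 ∧ y = 0 ∧ z = 0 := by
    intro x y z h3
    rw [ha, hb, hc, smul_smul, smul_smul, smul_smul] at h3
    have hx := Chr_ind iA (x * α) (y * β) (z * γ) h3
    have hy := Chr_ind iB (y * β) (x * α) (z * γ) (by rw [← h3]; module)
    have hz := Chr_ind iC (z * γ) (x * α) (y * β) (by rw [← h3]; module)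
    exact ⟨(mul_eq_zero.1 hx).resolve_right hα, (mul_eq_zero.1 hy).resolve_right hβ,
      (mul_eq_zero.1 hz).resolve_right hγ⟩
  -- the vector of `e1 + e2`
  obtain ⟨t, ht⟩ : ∃ t : K, Y (e1 + e2) = t • (b + c) := by
    obtain ⟨p, q, h3⟩ := hp (x := e1) (z := e2) (u := e1 + e2)
      (mem_span_pair.2 ⟨1, 1, by rw [one_smul, one_smul]⟩)
    obtain ⟨s, t, h4⟩ := hp (x := e0) (z := e0 + e1 + e2) (u := e1 + e2)
      (mem_span_pair.2 ⟨-1, 1, by rw [neg_smul, one_smul, one_smul]; abel⟩)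
    rw [← hB, ← hC, hB', hC'] at h3
    rw [← hA, hD, hA'] at h4
    have h5 : (s * α⁻¹ + t) • a + (t - p * β⁻¹) • b + (t - q * γ⁻¹) • c = 0 := by
      have h6 := sub_eq_zero.2 (h4.symm.trans h3)
      rw [← h6]
      module
    obtain ⟨h7, -, -⟩ := hL _ _ _ h5
    refine ⟨t, ?_⟩
    have h8 : t • (b + c) = s • α⁻¹ • a + t • (a + b + c) - (s * α⁻¹ + t) • a := by module
    rw [h4, h8, h7, zero_smul, sub_zero]
  -- the vector of `e0 + e2`
  obtain ⟨t', ht'⟩ : ∃ t : K, Y (e0 + e2) = t • (a + c) := by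
    obtain ⟨p, q, h3⟩ := hp (x := e0) (z := e2) (u := e0 + e2)
      (mem_span_pair.2 ⟨1, 1, by rw [one_smul, one_smul]⟩)
    obtain ⟨s, t, h4⟩ := hp (x := e1) (z := e0 + e1 + e2) (u := e0 + e2)
      (mem_span_pair.2 ⟨-1, 1, by rw [neg_smul, one_smul, one_smul]; abel⟩)
    rw [← hA, ← hC, hA', hC'] at h3
    rw [← hB, hD, hB'] at h4
    have h5 : (t - p * α⁻¹) • a + (s * β⁻¹ + t) • b + (t - q * γ⁻¹) • c = 0 := by
      have h6 := sub_eq_zero.2 (h4.symm.trans h3)
      rw [← h6]
      module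
    obtain ⟨-, h7, -⟩ := hL _ _ _ h5
    refine ⟨t, ?_⟩
    have h8 : t • (a + c) = s • β⁻¹ • b + t • (a + b + c) - (s * β⁻¹ + t) • b := by module
    rw [h4, h8, h7, zero_smul, sub_zero]
  -- the induction
  have hj : ∀ j : ℕ, ∃ m : K, Y (e0 + j • e1) = m • (a + (j : K) • b) := by
    intro j
    induction j with
    | zero =>
      refine ⟨α⁻¹, ?_⟩
      rw [zero_smul, add_zero, ← hA, Nat.cast_zero, zero_smul, add_zero]
      exact hA'
    | succ j ih =>
      obtain ⟨m, hm⟩ := ih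
      obtain ⟨u, hu⟩ : ∃ u : V, u = e0 + (j + 1) • e1 + e2 := ⟨_, rfl⟩
      obtain ⟨p, q, h3⟩ := hp (x := e0 + j • e1) (z := e1 + e2) (u := u)
        (mem_span_pair.2 ⟨1, 1, by rw [hu, one_smul, one_smul, add_smul, one_smul]; abel⟩)
      obtain ⟨p', q', h4⟩ := hp (x := e0 + e2) (z := e1) (u := u)
        (mem_span_pair.2 ⟨1, ((j + 1 : ℕ) : F), by
          rw [hu, one_smul, Nat.cast_smul_eq_nsmul]; abel⟩)
      rw [hm, ht] at h3
      rw [ht', ← hB, hB'] at h4
      have h5 : (p * m - p' * t') • a + (p * m * j + q * t - q' * β⁻¹) • b +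
          (q * t - p' * t') • c = 0 := by
        have h6 := sub_eq_zero.2 (h3.symm.trans h4)
        rw [← h6]
        module
      obtain ⟨h7, -, h8⟩ := hL _ _ _ h5
      have h9 : Y u = (p * m) • (a + ((j + 1 : ℕ) : K) • b + c) := by
        have h10 : q * t = p * m := by
          rw [sub_eq_zero.1 h8, sub_eq_zero.1 h7]
        have h11 : Y u = (p * m) • (a + (j : K) • b) + (q * t) • (b + c) := by
          rw [h3]
          module
        rw [h11, h10]
        push_cast
        module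
      obtain ⟨p3, q3, h12⟩ := hp (x := u) (z := e2) (u := e0 + (j + 1) • e1)
        (mem_span_pair.2 ⟨1, -1, by rw [hu, one_smul, neg_smul, one_smul]; abel⟩)
      obtain ⟨p4, q4, h13⟩ := hp (x := e0) (z := e1) (u := e0 + (j + 1) • e1)
        (mem_span_pair.2 ⟨1, ((j + 1 : ℕ) : F), by rw [one_smul, Nat.cast_smul_eq_nsmul]⟩)
      rw [h9, ← hC, hC'] at h12
      rw [← hA, ← hB, hA', hB'] at h13
      have h14 : (p3 * (p * m) - p4 * α⁻¹) • a +
          (p3 * (p * m) * ((j + 1 : ℕ) : K) - q4 * β⁻¹) • b +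
          (p3 * (p * m) + q3 * γ⁻¹) • c = 0 := by
        have h6 := sub_eq_zero.2 (h12.symm.trans h13)
        rw [← h6]
        module
      obtain ⟨-, -, h15⟩ := hL _ _ _ h14
      refine ⟨p3 * (p * m), ?_⟩
      have h16 : (p3 * (p * m)) • (a + ((j + 1 : ℕ) : K) • b) =
          p3 • (p * m) • (a + ((j + 1 : ℕ) : K) • b + c) + q3 • γ⁻¹ • c -
            (p3 * (p * m) + q3 * γ⁻¹) • c := by module
      rw [h12, h16, h15, zero_smul, sub_zero]
  obtain ⟨m, hm⟩ := hj r
  rw [hr, add_zero, ← hA, hA'] at hm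
  have h5 : (m - α⁻¹) • a + (m * r) • b + (0 : K) • c = 0 := by
    have h6 := sub_eq_zero.2 hm.symm
    rw [← h6]
    module
  obtain ⟨h7, h8, -⟩ := hL _ _ _ h5
  rw [sub_eq_zero.1 h7] at h8
  exact (mul_eq_zero.1 h8).resolve_left (inv_ne_zero hα)

end Chr_aux

/-- If the projective geometry of `F ^ (k + 1)`, `2 ≤ k`, is represented over `K` then `K` has the
characteristic of `F`. -/
theorem chr (K : Type) [Field K] {W : Type} [AddCommGroup W] [Module K W] {k : ℕ} (hk : 2 ≤ k)
    (F : Type) [Field F] (r : ℕ) [CharP F r] (y : Projectivization F (Fin (k + 1) → F) → W)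
    (h : ∀ I : Set (Projectivization F (Fin (k + 1) → F)),
      LinearIndepOn K y I ↔ LinearIndependent F (fun x : I => x.1.rep)) : (r : K) = 0 := by
  have hE := Chr_vec (K := K) (y := y) h
  have hi : ∀ (i : Fin (k + 1)) (u v : Fin (k + 1) → F), u i = 0 → v i = 0 →
      ∀ w ∈ span F {u, v}, w i = 0 := by
    intro i u v hu hv w hw
    obtain ⟨p, q, rfl⟩ := mem_span_pair.1 hw
    rw [Pi.add_apply, Pi.smul_apply, Pi.smul_apply, hu, hv, smul_zero, smul_zero, add_zero]
  obtain ⟨i0, hi0⟩ : ∃ i : Fin (k + 1), i.val = 0 := ⟨⟨0, by omega⟩, rfl⟩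
  obtain ⟨i1, hi1⟩ : ∃ i : Fin (k + 1), i.val = 1 := ⟨⟨1, by omega⟩, rfl⟩
  obtain ⟨i2, hi2⟩ : ∃ i : Fin (k + 1), i.val = 2 := ⟨⟨2, by omega⟩, rfl⟩
  have n01 : i0 ≠ i1 := fun hh => by rw [hh, hi1] at hi0; omega
  have n02 : i0 ≠ i2 := fun hh => by rw [hh, hi2] at hi0; omega
  have n12 : i1 ≠ i2 := fun hh => by rw [hh, hi2] at hi1; omega
  have hs : ∀ i j : Fin (k + 1), i ≠ j → (Pi.single i (1 : F) : Fin (k + 1) → F) j = 0 :=
    fun i j hij => Pi.single_eq_of_ne hij.symm 1
  refine Chr_abs (e0 := Pi.single i0 (1 : F)) (e1 := Pi.single i1 (1 : F))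
    (e2 := Pi.single i2 (1 : F)) hE ?_ ?_ ?_ r ?_
  · intro hh
    have h1 := hi i0 _ _ (hs i1 i0 n01.symm) (hs i2 i0 n02.symm) _ hh
    rw [Pi.single_eq_same] at h1
    exact one_ne_zero h1
  · intro hh
    have h1 := hi i1 _ _ (hs i0 i1 n01) (hs i2 i1 n12.symm) _ hh
    rw [Pi.single_eq_same] at h1
    exact one_ne_zero h1
  · intro hh
    have h1 := hi i2 _ _ (hs i0 i2 n02) (hs i1 i2 n12) _ hh
    rw [Pi.single_eq_same] at h1
    exact one_ne_zero h1
  · rw [← Nat.cast_smul_eq_nsmul F, CharP.cast_eq_zero, zero_smul]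

end Pool.Agent.H.MP_60a1a2_co.Lp
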