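import Pool.Agent.H.MP_60a1a2_co.Lp.Def

/-!
# Simple minors of the cycle matroid are small

The finished proof for the field with two elements is in Lb/Gc.lean (adapt it: signs instead of
characteristic 2). PROOF: as there; `h1` now says that `gv e`, `gv f` are linearly independent modulo `span (gv '' C)`. The functional `x ↦ ∑ w ~ u, x w` is `± 1`
at `gv e`.
-/

set_option autoImplicit false

open Matroid Module Submodule

namespace Pool.Agent.H.MP_60a1a2_co.Lp

private theorem Gc_ex (K : Type) [Field K] {N : ℕ} (C : Set (Ed N)) (P : Finset (Ed N)) :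
    ∃ I : Finset (Ed N), I ⊆ P ∧ (∀ e ∈ P, gv K e ∈ span K (gv K '' (C ∪ (I : Set (Ed N))))) ∧
      finrank K (span K (gv K '' C)) + I.card ≤
        finrank K (span K (gv K '' (C ∪ (I : Set (Ed N))))) := by
  classical
  induction P using Finset.induction_on with
  | empty =>
    refine ⟨∅, Finset.Subset.refl _, fun e he => absurd he (Finset.notMem_empty e), ?_⟩
    rw [Finset.coe_empty, Set.union_empty, Finset.card_empty, add_zero]
  | insert e P he ih =>
    obtain ⟨I, hIP, hsp, hfr⟩ := ih
    by_cases hin : gv K e ∈ span K (gv K '' (C ∪ (I : Set (Ed N))))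
    · refine ⟨I, hIP.trans (Finset.subset_insert _ _), ?_, hfr⟩
      intro f hf
      rcases Finset.mem_insert.1 hf with rfl | hf
      · exact hin
      · exact hsp f hf
    · have hsub : (I : Set (Ed N)) ⊆ ((insert e I : Finset (Ed N)) : Set (Ed N)) := by
        intro x hx
        exact Finset.mem_coe.2 (Finset.mem_insert_of_mem hx)
      have hmono : span K (gv K '' (C ∪ (I : Set (Ed N)))) ≤
          span K (gv K '' (C ∪ ((insert e I : Finset (Ed N)) : Set (Ed N)))) :=
        span_mono (Set.image_mono (Set.union_subset_union_right _ hsub))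
      have hmem : gv K e ∈ span K (gv K '' (C ∪ ((insert e I : Finset (Ed N)) : Set (Ed N)))) :=
        subset_span ⟨e, Or.inr (by simp), rfl⟩
      refine ⟨insert e I, Finset.insert_subset_insert _ hIP, ?_, ?_⟩
      · intro f hf
        rcases Finset.mem_insert.1 hf with rfl | hf
        · exact hmem
        · exact hmono (hsp f hf)
      · have hlt := Submodule.finrank_lt_finrank_of_lt
          (lt_of_le_of_ne hmono (fun h => hin (h ▸ hmem)))
        have := Finset.card_insert_le e I
        omega

private theorem Gc_self (K : Type) [Field K] {N : ℕ} (u : Fin N) : pv K u u = 0 := by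
  unfold pv
  exact sub_self _

private theorem Gc_comm (K : Type) [Field K] {N : ℕ} (u v : Fin N) : pv K u v = -pv K v u := by
  unfold pv
  exact (neg_sub _ _).symm

private theorem Gc_trans (K : Type) [Field K] {N : ℕ} (u v w : Fin N) :
    pv K u v + pv K v w = pv K u w := by
  unfold pv
  exact sub_add_sub_cancel _ _ _

/-- The classes of the vertices. -/
private def Gc_s (K : Type) [Field K] {N : ℕ} (C : Set (Ed N)) : Setoid (Fin N) where
  r u v := pv K u v ∈ span K (gv K '' C)
  iseqv := {
    refl := fun u => by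
      show pv K u u ∈ _
      rw [Gc_self]
      exact zero_mem _
    symm := fun {u v} h => by
      show pv K v u ∈ _
      rw [Gc_comm]
      exact neg_mem h
    trans := fun {u v w} h h' => by
      show pv K u w ∈ _
      rw [← Gc_trans K u v w]
      exact add_mem h h' }

private theorem Gc_chi (K : Type) [Field K] {N : ℕ} (p : Fin N → Prop) [DecidablePred p] :
    ∃ χ : (Fin N → K) →ₗ[K] K, ∀ u v, χ (pv K u v) = (if p u then 1 else 0) -
      (if p v then 1 else 0) := by
  refine ⟨∑ w ∈ Finset.univ.filter p, LinearMap.proj w, fun u v => ?_⟩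
  rw [LinearMap.sum_apply]
  simp only [LinearMap.proj_apply, pv, Pi.sub_apply, Finset.sum_sub_distrib, Pi.single_apply]
  simp [Finset.sum_ite_eq']

theorem cnt_g (K : Type) [Field K] {N d : ℕ} (C : Set (Ed N)) (P : Finset (Ed N))
    (h0 : ∀ e ∈ P, gv K e ∉ span K (gv K '' C))
    (h1 : ∀ e ∈ P, ∀ f ∈ P, e ≠ f → ∀ a b : K,
      a • gv K e + b • gv K f ∈ span K (gv K '' C) → a = 0 ∧ b = 0)
    (hd : finrank K (span K (gv K '' (C ∪ (P : Set (Ed N))))) ≤
      finrank K (span K (gv K '' C)) + d) :
    P.card ≤ (2 * d).choose 2 := by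
  classical
  obtain ⟨I, hIP, hsp, hfr⟩ := Gc_ex K C P
  have hId : I.card ≤ d := by
    have hle : finrank K (span K (gv K '' (C ∪ (I : Set (Ed N))))) ≤
        finrank K (span K (gv K '' (C ∪ (P : Set (Ed N))))) :=
      Submodule.finrank_mono (span_mono (Set.image_mono
        (Set.union_subset_union_right _ (Finset.coe_subset.2 hIP))))
    omega
  let _ : Setoid (Fin N) := Gc_s K C
  let cl : Fin N → Quotient (Gc_s K C) := fun u => Quotient.mk _ u
  have hcl : ∀ u v, cl u = cl v ↔ pv K u v ∈ span K (gv K '' C) := fun u v => Quotient.eq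
  let S : Finset (Quotient (Gc_s K C)) := I.image (fun e => cl e.1.1) ∪ I.image (fun e => cl e.1.2)
  have hScard : S.card ≤ 2 * d := by
    have h3 := Finset.card_union_le (I.image (fun e => cl e.1.1)) (I.image (fun e => cl e.1.2))
    have h4 := Finset.card_image_le (s := I) (f := fun e => cl e.1.1)
    have h5 := Finset.card_image_le (s := I) (f := fun e => cl e.1.2)
    show (I.image (fun e => cl e.1.1) ∪ I.image (fun e => cl e.1.2)).card ≤ 2 * d
    omega
  have hne : ∀ e ∈ P, cl e.1.1 ≠ cl e.1.2 := by
    intro e he h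
    exact h0 e he ((hcl _ _).1 h)
  have key : ∀ e ∈ P, ∀ q : Quotient (Gc_s K C), (cl e.1.1 = q ∨ cl e.1.2 = q) → q ∈ S := by
    intro e he q hq
    by_contra hqS
    obtain ⟨χ, hχ⟩ := Gc_chi K (fun w : Fin N => cl w = q)
    have hker : span K (gv K '' (C ∪ (I : Set (Ed N)))) ≤ LinearMap.ker χ := by
      rw [span_le]
      rintro _ ⟨f, hf, rfl⟩
      show χ (pv K f.1.1 f.1.2) = 0
      rw [hχ]
      rcases hf with hf | hf
      · have hff : cl f.1.1 = cl f.1.2 := (hcl _ _).2 (subset_span ⟨f, hf, rfl⟩)
        rw [hff]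
        exact sub_self _
      · have hf' : f ∈ I := hf
        have h3 : cl f.1.1 ≠ q := fun h => hqS (Finset.mem_union_left _ (by
          rw [← h]
          exact Finset.mem_image_of_mem (fun e => cl e.1.1) hf'))
        have h4 : cl f.1.2 ≠ q := fun h => hqS (Finset.mem_union_right _ (by
          rw [← h]
          exact Finset.mem_image_of_mem (fun e => cl e.1.2) hf'))
        rw [if_neg h3, if_neg h4, sub_zero]
    have hz : χ (pv K e.1.1 e.1.2) = 0 := hker (hsp e he)
    rw [hχ] at hz
    rcases hq with hq | hq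
    · have h4 : cl e.1.2 ≠ q := fun h => hne e he (hq.trans h.symm)
      rw [if_pos hq, if_neg h4, sub_zero] at hz
      exact one_ne_zero hz
    · have h4 : cl e.1.1 ≠ q := fun h => hne e he (h.trans hq.symm)
      rw [if_pos hq, if_neg h4, zero_sub, neg_eq_zero] at hz
      exact one_ne_zero hz
  have hmaps : ∀ e ∈ P, s(cl e.1.1, cl e.1.2) ∈ S.offDiag.image (fun x => s(x.1, x.2)) := by
    intro e he
    refine Finset.mem_image.2 ⟨(cl e.1.1, cl e.1.2), ?_, rfl⟩
    rw [Finset.mem_offDiag]
    exact ⟨key e he _ (Or.inl rfl), key e he _ (Or.inr rfl), hne e he⟩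
  have hinj : Set.InjOn (fun e : Ed N => s(cl e.1.1, cl e.1.2)) (P : Set (Ed N)) := by
    intro e he f hf hef
    by_contra hne'
    rcases Sym2.eq_iff.1 hef with ⟨ha, hb⟩ | ⟨ha, hb⟩
    · have h3 := sub_mem ((hcl _ _).1 ha) ((hcl _ _).1 hb)
      have h4 : pv K e.1.1 f.1.1 - pv K e.1.2 f.1.2 =
          (1 : K) • pv K e.1.1 e.1.2 + (-1 : K) • pv K f.1.1 f.1.2 := by
        unfold pv
        rw [one_smul, neg_smul, one_smul]
        abel
      rw [h4] at h3
      exact one_ne_zero (h1 e he f hf hne' 1 (-1) h3).1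
    · have h3 := sub_mem ((hcl _ _).1 ha) ((hcl _ _).1 hb)
      have h4 : pv K e.1.1 f.1.2 - pv K e.1.2 f.1.1 =
          (1 : K) • pv K e.1.1 e.1.2 + (1 : K) • pv K f.1.1 f.1.2 := by
        unfold pv
        rw [one_smul, one_smul]
        abel
      rw [h4] at h3
      exact one_ne_zero (h1 e he f hf hne' 1 1 h3).1
  have h5 : P.card ≤ (S.offDiag.image (fun x => s(x.1, x.2))).card :=
    Finset.card_le_card_of_injOn _ hmaps hinj
  have h6 : (S.offDiag.image (fun x => s(x.1, x.2))).card = S.card.choose 2 :=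
    Sym2.card_image_offDiag S
  rw [h6] at h5
  exact h5.trans (Nat.choose_le_choose 2 hScard)

end Pool.Agent.H.MP_60a1a2_co.Lp
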