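import Pool.Agent.H.MP_60a1a2_co.Lp.Tm

/-!
# Ranks of the two parts

The finished proof for the field with two elements is in Lb/Rki.lean (adapt it: signs instead of
characteristic 2). PROOF: as there.
-/

set_option autoImplicit false

open Matroid Module Submodule

namespace Pool.Agent.H.MP_60a1a2_co.Lp

section aux

variable (K : Type) [Field K]

private theorem Rki_key {V : Type} [AddCommGroup V] [Module K V] [Module.Finite K V]
    (X₀ X Y Y' : Submodule K V) {n r : ℕ} (hY : Y ≤ Y') (hc : finrank K ↥(X ⊓ Y) ≤ n)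
    (h : finrank K ↥(X ⊔ Y') ≤ finrank K ↥(X₀ ⊔ Y) + r) :
    finrank K X ≤ finrank K X₀ + (r + n) := by
  have h1 := Submodule.finrank_sup_add_finrank_inf_eq X Y
  have h2 := Submodule.finrank_add_le_finrank_add_finrank X₀ Y
  have h3 : finrank K ↥(X ⊔ Y) ≤ finrank K ↥(X ⊔ Y') :=
    Submodule.finrank_mono (sup_le_sup_left hY X)
  omega

private theorem Rki_inl (n N : ℕ) (S : Set (Ed N)) :
    span K (vec K n N '' (Sum.inl '' S)) = (span K (gv K '' S)).map (tmap K n N) := by
  rw [Submodule.map_span, Set.image_image, Set.image_image]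
  congr 1
  refine Set.image_congr fun e _ => ?_
  show tv K n N e.1.1 - tv K n N e.1.2 = tmap K n N (pv K e.1.1 e.1.2)
  rw [tmap_pv]

private theorem Rki_inr (n N : ℕ) (S : Set (Ed N)) :
    span K (vec K n N '' (Sum.inr '' S)) =
      (span K (cv K '' S)).map (LinearMap.inl K (Bs K N) (Fin N → K)) := by
  rw [Submodule.map_span, Set.image_image, Set.image_image]
  rfl

private theorem Rki_sup (n N : ℕ) (S T : Set (Ed N)) :
    span K (vec K n N '' (Sum.inl '' S ∪ Sum.inr '' T)) =
      (span K (gv K '' S)).map (tmap K n N) ⊔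
        (span K (cv K '' T)).map (LinearMap.inl K (Bs K N) (Fin N → K)) := by
  rw [Set.image_union, Submodule.span_union, Rki_inl, Rki_inr]

private theorem Rki_snd (n N : ℕ) (x : Fin N → K) (j : Fin N) (hj : n < j.1) :
    (tmap K n N x).2 j = x j := by
  have h1 : tmap K n N x = ∑ i, x i • tv K n N i := Fintype.linearCombination_apply K _ _
  rw [h1, Prod.snd_sum, Finset.sum_apply, Finset.sum_eq_single j]
  · have : tv K n N j = (0, Pi.single j 1) := by
      unfold tv; rw [if_neg (by omega)]
    rw [this]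
    simp
  · intro i _ hij
    unfold tv
    split_ifs with h
    · simp
    · simp [hij.symm]
  · intro h; exact absurd (Finset.mem_univ j) h

private theorem Rki_cap {n N : ℕ} (hN : n + 2 ≤ N) (S : Submodule K (Fin N → K))
    (T : Submodule K (Bs K N)) :
    finrank K ↥(S.map (tmap K n N) ⊓ T.map (LinearMap.inl K (Bs K N) (Fin N → K))) ≤ n := by
  have hle : S.map (tmap K n N) ⊓ T.map (LinearMap.inl K (Bs K N) (Fin N → K)) ≤
      span K (Set.range fun i : Fin n => tv K n N ⟨i.1 + 1, by have := i.2; omega⟩) := by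
    rintro z ⟨⟨x, -, hx⟩, ⟨b, -, hb⟩⟩
    have hz : z.2 = 0 := by rw [← hb]; rfl
    have h0 : ∀ j : Fin N, n < j.1 → x j = 0 := fun j hj => by
      rw [← Rki_snd K n N x j hj, hx, hz]; rfl
    have h1 : tmap K n N x = ∑ i, x i • tv K n N i := Fintype.linearCombination_apply K _ _
    rw [← hx, h1]
    refine Submodule.sum_mem _ fun j _ => ?_
    by_cases hj : n < j.1
    · rw [h0 j hj, zero_smul]; exact Submodule.zero_mem _
    · refine Submodule.smul_mem _ _ ?_
      by_cases hj0 : j.1 = 0
      · have : tv K n N j = 0 := by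
          unfold tv; rw [if_pos (by omega), hj0]; simp
        rw [this]; exact Submodule.zero_mem _
      · refine Submodule.subset_span ⟨⟨j.1 - 1, by omega⟩, ?_⟩
        show tv K n N ⟨j.1 - 1 + 1, _⟩ = tv K n N j
        congr 1
        exact Fin.ext (by show j.1 - 1 + 1 = j.1; omega)
  refine (Submodule.finrank_mono hle).trans ?_
  have := finrank_range_le_card (R := K) (fun i : Fin n => tv K n N ⟨i.1 + 1, by have := i.2; omega⟩)
  rw [Fintype.card_fin] at this
  exact this

private theorem Rki_fin {V W : Type} [AddCommGroup V] [Module K V] [AddCommGroup W] [Module K W]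
    (f : V →ₗ[K] W) (S : Submodule K V) (hf : ∀ x ∈ S, f x = 0 → x = 0) :
    finrank K (S.map f) = finrank K S := by
  have h1 : Function.Injective (f.domRestrict S) := by
    rw [← LinearMap.ker_eq_bot, LinearMap.ker_eq_bot']
    intro x hx
    exact Subtype.ext (hf x.1 x.2 hx)
  have h2 := LinearMap.finrank_range_of_inj h1
  rwa [LinearMap.range_domRestrict] at h2

private theorem Rki_finl {n N : ℕ} (hN : n + 2 ≤ N) (S : Set (Ed N)) :
    finrank K ((span K (gv K '' S)).map (tmap K n N)) = finrank K (span K (gv K '' S)) :=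
  Rki_fin K _ _ fun x hx h => tmap_inj K hN x (Submodule.span_mono (Set.image_subset_range _ _) hx) h

private theorem Rki_finr (N : ℕ) (T : Submodule K (Bs K N)) :
    finrank K (T.map (LinearMap.inl K (Bs K N) (Fin N → K))) = finrank K T :=
  Rki_fin K _ _ fun x _ h => LinearMap.inl_injective (by rw [h, map_zero])

end aux

theorem rk_inl (K : Type) [Field K] {n N r : ℕ} (hN : n + 2 ≤ N) (C₁ P₁ C₂ P₂ : Set (Ed N))
    (h : finrank K (span K (vec K n N '' (Sum.inl '' (C₁ ∪ P₁) ∪ Sum.inr '' (C₂ ∪ P₂)))) ≤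
      finrank K (span K (vec K n N '' (Sum.inl '' C₁ ∪ Sum.inr '' C₂))) + r) :
    finrank K (span K (gv K '' (C₁ ∪ P₁))) ≤ finrank K (span K (gv K '' C₁)) + (r + n) := by
  rw [Rki_sup, Rki_sup] at h
  rw [← Rki_finl K hN, ← Rki_finl K hN]
  refine Rki_key K _ _ _ _ ?_ (Rki_cap K hN _ _) h
  exact Submodule.map_mono (Submodule.span_mono (Set.image_mono Set.subset_union_left))

theorem rk_inr (K : Type) [Field K] {n N r : ℕ} (hN : n + 2 ≤ N) (C₁ P₁ C₂ P₂ : Set (Ed N))
    (h : finrank K (span K (vec K n N '' (Sum.inl '' (C₁ ∪ P₁) ∪ Sum.inr '' (C₂ ∪ P₂)))) ≤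
      finrank K (span K (vec K n N '' (Sum.inl '' C₁ ∪ Sum.inr '' C₂))) + r) :
    finrank K (span K (cv K '' (C₂ ∪ P₂))) ≤ finrank K (span K (cv K '' C₂)) + (r + n) := by
  rw [Rki_sup, Rki_sup, sup_comm, sup_comm ((span K (gv K '' C₁)).map (tmap K n N))] at h
  rw [← Rki_finr K N, ← Rki_finr K N]
  refine Rki_key K _ _ _ _ ?_ (by rw [inf_comm]; exact Rki_cap K hN _ _) h
  exact Submodule.map_mono (Submodule.span_mono (Set.image_mono Set.subset_union_left))

end Pool.Agent.H.MP_60a1a2_co.Lp
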