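import Pool.Agent.H.MP_60a1a2_co.Lp.LmC
import Pool.Agent.H.MP_60a1a2_co.Lp.Rki
import Pool.Agent.H.MP_60a1a2_co.Lp.Gc
import Pool.Agent.H.MP_60a1a2_co.Lp.Cc

/-!
# Simple minors of the glued matroid are small

The finished proof for the field with two elements is in Lb/Cnt.lean (adapt it: signs instead of
characteristic 2). PROOF: as there; a pair `{inl e, inl f}` is independent in the minor, so `vec (inl e)`, `vec (inl f)` are linearly independent modulo `span (vec '' C)`
(`LinearIndepOn.pair_iff`), and so are `gv e`, `gv f` modulo `span (gv '' C₁)`.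
-/

set_option autoImplicit false

open Matroid Module Submodule

namespace Pool.Agent.H.MP_60a1a2_co.Lp

private theorem Cnt_one (K : Type) [Field K] {E W : Type} [AddCommGroup W] [Module K W] {v : E → W}
    {L : Submodule K W} {x : E} (h : LinearIndepOn K (fun e => L.mkQ (v e)) {x}) :
    v x ∉ L := by
  intro hx
  have h1 := h.ne_zero (Set.mem_singleton x)
  exact h1 ((Submodule.Quotient.mk_eq_zero L).2 hx)

private theorem Cnt_two (K : Type) [Field K] {E W : Type} [AddCommGroup W] [Module K W] {v : E → W}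
    {L : Submodule K W} {x y : E} (hxy : x ≠ y)
    (h : LinearIndepOn K (fun e => L.mkQ (v e)) {x, y}) (a b : K) (hx : a • v x + b • v y ∈ L) :
    a = 0 ∧ b = 0 := by
  have h0 := (LinearIndepOn.pair_iff (fun e => L.mkQ (v e)) hxy).1 h
  refine h0 a b ?_
  rw [← map_smul, ← map_smul, ← map_add]
  exact (Submodule.Quotient.mk_eq_zero L).2 hx

private theorem Cnt_rank (K : Type) [Field K] {E W : Type} [Finite E] [AddCommGroup W] [Module K W]
    [Module.Finite K W] (v : E → W) (C : Set E) {Nm : Matroid E} (r : ℕ)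
    (hind : ∀ I ⊆ Nm.E, Nm.Indep I ↔
      LinearIndepOn K (fun e => (span K (v '' C)).mkQ (v e)) I) (hr : Nm.eRank ≤ (r : ℕ)) :
    finrank K (span K (v '' (C ∪ Nm.E))) ≤ finrank K (span K (v '' C)) + r := by
  set L := span K (v '' C) with hL
  set S := span K (v '' (C ∪ Nm.E)) with hS
  obtain ⟨B, hB⟩ := Nm.exists_isBase
  have hBi := (hind B hB.subset_ground).1 hB.indep
  have hBc : B.ncard ≤ r := by
    have h1 : B.encard = Nm.eRank := hB.encard_eq_eRank
    have h2 : ((B.ncard : ℕ) : ℕ∞) ≤ (r : ℕ) := by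
      rw [(Set.toFinite B).cast_ncard_eq, h1]
      exact hr
    exact_mod_cast h2
  have hmap : S.map L.mkQ ≤ span K ((fun e => L.mkQ (v e)) '' B) := by
    rw [hS, Submodule.map_span_le]
    rintro _ ⟨e, he, rfl⟩
    rcases he with he | he
    · have h1 : L.mkQ (v e) = 0 :=
        (Submodule.Quotient.mk_eq_zero L).2 (subset_span ⟨e, he, rfl⟩)
      rw [h1]
      exact zero_mem _
    · by_cases heB : e ∈ B
      · exact subset_span ⟨e, heB, rfl⟩
      · by_contra hn
        have h1 : LinearIndepOn K (fun e => L.mkQ (v e)) (insert e B) :=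
          (linearIndepOn_insert heB).2 ⟨hBi, hn⟩
        have h2 : Nm.Indep (insert e B) :=
          (hind _ (Set.insert_subset he hB.subset_ground)).2 h1
        have h3 := hB.eq_of_subset_indep h2 (Set.subset_insert _ _)
        exact heB (h3 ▸ Set.mem_insert e B)
  have hf1 : finrank K (S.map L.mkQ) ≤ r := by
    refine (Submodule.finrank_mono hmap).trans ?_
    rw [Lb_finrank K hBi]
    exact hBc
  have hker := LinearMap.finrank_range_add_finrank_ker (L.mkQ ∘ₗ S.subtype)
  have hrange : LinearMap.range (L.mkQ ∘ₗ S.subtype) = S.map L.mkQ := by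
    rw [LinearMap.range_comp, Submodule.range_subtype]
  have hk : finrank K (LinearMap.ker (L.mkQ ∘ₗ S.subtype)) ≤ finrank K L := by
    rw [← Submodule.finrank_map_subtype_eq S (LinearMap.ker (L.mkQ ∘ₗ S.subtype))]
    apply Submodule.finrank_mono
    rintro _ ⟨x, hx, rfl⟩
    have h1 : L.mkQ (x : W) = 0 := hx
    exact (Submodule.Quotient.mk_eq_zero L).1 h1
  rw [hrange] at hker
  omega

private theorem Cnt_vec (K : Type) [Field K] (n N : ℕ) (e : Ed N) :
    vec K n N (Sum.inl e) = tmap K n N (gv K e) := by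
  show tv K n N e.1.1 - tv K n N e.1.2 = tmap K n N (Pi.single e.1.1 1 - Pi.single e.1.2 1)
  unfold tmap
  rw [map_sub, Fintype.linearCombination_apply_single, Fintype.linearCombination_apply_single,
    one_smul, one_smul]

private theorem Cnt_inl (K : Type) [Field K] {n N : ℕ} {C : Set (Ed N ⊕ Ed N)} {x : Fin N → K}
    (h : x ∈ span K (gv K '' (Sum.inl ⁻¹' C))) :
    tmap K n N x ∈ span K (vec K n N '' C) := by
  have h1 : span K (gv K '' (Sum.inl ⁻¹' C)) ≤
      (span K (vec K n N '' C)).comap (tmap K n N) := by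
    rw [span_le]
    rintro _ ⟨e, he, rfl⟩
    show tmap K n N (gv K e) ∈ span K (vec K n N '' C)
    rw [← Cnt_vec]
    exact subset_span ⟨Sum.inl e, he, rfl⟩
  exact h1 h

private theorem Cnt_inr (K : Type) [Field K] {n N : ℕ} {C : Set (Ed N ⊕ Ed N)} {x : Bs K N}
    (h : x ∈ span K (cv K '' (Sum.inr ⁻¹' C))) :
    ((x, 0) : Bs K N × (Fin N → K)) ∈ span K (vec K n N '' C) := by
  have h1 : span K (cv K '' (Sum.inr ⁻¹' C)) ≤
      (span K (vec K n N '' C)).comap (LinearMap.inl K (Bs K N) (Fin N → K)) := by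
    rw [span_le]
    rintro _ ⟨e, he, rfl⟩
    show ((cv K e, 0) : Bs K N × (Fin N → K)) ∈ span K (vec K n N '' C)
    exact subset_span ⟨Sum.inr e, he, rfl⟩
  exact h1 h

private theorem Cnt_split {α β : Type} (C : Set (α ⊕ β)) :
    Sum.inl '' (Sum.inl ⁻¹' C) ∪ Sum.inr '' (Sum.inr ⁻¹' C) = C := by
  ext x
  rcases x with x | x
  · simp
  · simp

theorem cnt (K : Type) [Field K] {n N r : ℕ} (hN : n + 2 ≤ N) {Nm : Matroid (Ed N ⊕ Ed N)}
    (h : Nm ≤m gm K n N) (hs : ∀ x ∈ Nm.E, ∀ y ∈ Nm.E, Nm.Indep {x, y})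
    (hr : Nm.eRank ≤ (r : ℕ)) : Nm.E.ncard ≤ 2 * (r + n) * (r + n + 1) := by
  classical
  obtain ⟨C, _, hind⟩ := lm_minor K (vec K n N) h
  have hrk := Cnt_rank K (vec K n N) C r hind hr
  have hone : ∀ x ∈ Nm.E, vec K n N x ∉ span K (vec K n N '' C) := by
    intro x hx
    have h1 := hs x hx x hx
    rw [Set.pair_eq_singleton] at h1
    exact Cnt_one K ((hind _ (Set.singleton_subset_iff.2 hx)).1 h1)
  have htwo : ∀ x ∈ Nm.E, ∀ y ∈ Nm.E, x ≠ y → ∀ a b : K,
      a • vec K n N x + b • vec K n N y ∈ span K (vec K n N '' C) → a = 0 ∧ b = 0 := by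
    intro x hx y hy hxy a b hab
    exact Cnt_two K hxy ((hind _ (Set.pair_subset hx hy)).1 (hs x hx y hy)) a b hab
  have hrk' : finrank K (span K (vec K n N '' (Sum.inl '' ((Sum.inl ⁻¹' C) ∪ (Sum.inl ⁻¹' Nm.E)) ∪
      Sum.inr '' ((Sum.inr ⁻¹' C) ∪ (Sum.inr ⁻¹' Nm.E))))) ≤
      finrank K (span K (vec K n N '' (Sum.inl '' (Sum.inl ⁻¹' C) ∪
        Sum.inr '' (Sum.inr ⁻¹' C)))) + r := by
    rw [← Set.preimage_union, ← Set.preimage_union, Cnt_split, Cnt_split]
    exact hrk
  have h1 := rk_inl K hN _ _ _ _ hrk'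
  have h2 := rk_inr K hN _ _ _ _ hrk'
  have hP1 : ((Set.toFinite (Sum.inl ⁻¹' Nm.E : Set (Ed N))).toFinset : Set (Ed N)) =
      Sum.inl ⁻¹' Nm.E := Set.Finite.coe_toFinset _
  have hP2 : ((Set.toFinite (Sum.inr ⁻¹' Nm.E : Set (Ed N))).toFinset : Set (Ed N)) =
      Sum.inr ⁻¹' Nm.E := Set.Finite.coe_toFinset _
  have c1 := cnt_g K (d := r + n) (Sum.inl ⁻¹' C)
    ((Set.toFinite (Sum.inl ⁻¹' Nm.E : Set (Ed N))).toFinset)
    (by
      intro e he hc
      rw [Set.Finite.mem_toFinset] at he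
      have h3 := Cnt_inl K (n := n) hc
      rw [← Cnt_vec] at h3
      exact hone _ he h3)
    (by
      intro e he f hf hef a b hc
      rw [Set.Finite.mem_toFinset] at he hf
      have h3 := Cnt_inl K (n := n) hc
      rw [map_add, map_smul, map_smul, ← Cnt_vec, ← Cnt_vec] at h3
      exact htwo _ he _ hf (fun h4 => hef (Sum.inl_injective h4)) a b h3)
    (by
      rw [hP1]
      exact h1)
  have c2 := cnt_c K (d := r + n) (Sum.inr ⁻¹' C)
    ((Set.toFinite (Sum.inr ⁻¹' Nm.E : Set (Ed N))).toFinset)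
    (by
      intro e he hc
      rw [Set.Finite.mem_toFinset] at he
      exact hone _ he (Cnt_inr K (n := n) hc))
    (by
      intro e he f hf hef a b hc
      rw [Set.Finite.mem_toFinset] at he hf
      have h3 := Cnt_inr K (n := n) hc
      refine htwo _ he _ hf (fun h4 => hef (Sum.inr_injective h4)) a b ?_
      have h5 : a • vec K n N (Sum.inr e) + b • vec K n N (Sum.inr f) =
          ((a • cv K e + b • cv K f, 0) : Bs K N × (Fin N → K)) := by
        show a • ((cv K e, 0) : Bs K N × (Fin N → K)) + b • (cv K f, 0) = _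
        rw [Prod.smul_mk, Prod.smul_mk, Prod.mk_add_mk, smul_zero, smul_zero, add_zero]
      rw [h5]
      exact h3)
    (by
      rw [hP2]
      exact h2)
  rw [← Set.ncard_coe_finset, hP1] at c1
  rw [← Set.ncard_coe_finset, hP2] at c2
  have h3 : Nm.E.ncard ≤ (Sum.inl ⁻¹' Nm.E : Set (Ed N)).ncard +
      (Sum.inr ⁻¹' Nm.E : Set (Ed N)).ncard := by
    calc Nm.E.ncard = (Sum.inl '' (Sum.inl ⁻¹' Nm.E) ∪ Sum.inr '' (Sum.inr ⁻¹' Nm.E)).ncard := by
          rw [Cnt_split]
      _ ≤ (Sum.inl '' (Sum.inl ⁻¹' Nm.E)).ncard + (Sum.inr '' (Sum.inr ⁻¹' Nm.E)).ncard :=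
          Set.ncard_union_le _ _
      _ = _ := by
          rw [Set.ncard_image_of_injective _ Sum.inl_injective,
            Set.ncard_image_of_injective _ Sum.inr_injective]
  have h4 : (2 * (r + n)).choose 2 + 3 * (r + n) = 2 * (r + n) * (r + n + 1) := by
    rw [Nat.choose_two_right]
    generalize r + n = d
    rcases d with _ | d
    · rfl
    · have h5 : 2 * (d + 1) * (2 * (d + 1) - 1) / 2 = (d + 1) * (2 * d + 1) := by
        rw [mul_assoc, Nat.mul_div_cancel_left _ (by norm_num)]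
        congr 1
      rw [h5]
      ring
  omega

end Pool.Agent.H.MP_60a1a2_co.Lp
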