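import Pool.Agent.H.MP_60a1a2_co.Lp.Def

/-!
# The path in the dual of the cycle matroid

The finished proof for the field with two elements is in Lb/Cp.lean (adapt it: signs instead of
characteristic 2). PROOF: as there; `cob K N s (u, N - 1) = s u - s (N - 1) = 0` gives `s`
constant.
-/

set_option autoImplicit false

open Matroid Module Submodule

namespace Pool.Agent.H.MP_60a1a2_co.Lp

theorem cp_indep (K : Type) [Field K] {n N : ℕ} (hN : n + 2 ≤ N) :
    LinearIndependent K (fun i : Fin n => cp K N i.1) := by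
  classical
  rw [Fintype.linearIndependent_iff]
  intro g hg i₀
  have hlt : ∀ i : Fin n, i.1 + 1 < N := fun i => by
    have := i.2
    omega
  have h1 : (LinearMap.range (cob K N)).mkQ
      (∑ i : Fin n, g i • Pi.single (pe i.1 (hlt i)) (1 : K)) = 0 := by
    rw [← hg, map_sum]
    refine Finset.sum_congr rfl fun i _ => ?_
    rw [map_smul]
    unfold cp cv
    rw [dif_pos (hlt i)]
    rfl
  rw [Submodule.mkQ_apply, Submodule.Quotient.mk_eq_zero] at h1
  obtain ⟨s, hs⟩ := h1
  have ht : ∀ e : Ed N, s e.1.1 - s e.1.2 =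
      ∑ i : Fin n, g i * (if e = pe i.1 (hlt i) then 1 else 0) := by
    intro e
    have h2 := congrFun hs e
    rw [Finset.sum_apply] at h2
    refine Eq.trans h2 (Finset.sum_congr rfl fun i _ => ?_)
    rw [Pi.smul_apply, smul_eq_mul, Pi.single_apply]
  have hlast : N - 1 < N := by omega
  have hc : ∀ u : Fin N, s u = s ⟨N - 1, hlast⟩ := by
    intro u
    by_cases hu : u.1 < N - 1
    · have h2 := ht ⟨(u, ⟨N - 1, hlast⟩), hu⟩
      rw [Finset.sum_eq_zero] at h2
      · exact sub_eq_zero.1 h2
      · intro i _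
        rw [if_neg, mul_zero]
        intro he
        have h3 : N - 1 = i.1 + 1 := congrArg (fun e : Ed N => e.1.2.1) he
        have := i.2
        omega
    · have h2 : u = ⟨N - 1, hlast⟩ := by
        apply Fin.ext
        have := u.2
        show u.1 = N - 1
        omega
      rw [h2]
  have h4 := ht (pe i₀.1 (hlt i₀))
  rw [hc (pe i₀.1 (hlt i₀)).1.1, hc (pe i₀.1 (hlt i₀)).1.2, sub_self,
    Finset.sum_eq_single i₀] at h4
  · rw [if_pos rfl, mul_one] at h4
    exact h4.symm
  · intro i _ hi
    rw [if_neg, mul_zero]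
    intro he
    have h3 : i₀.1 = i.1 := congrArg (fun e : Ed N => e.1.1.1) he
    exact hi (Fin.ext h3.symm)
  · intro h
    exact absurd (Finset.mem_univ _) h

end Pool.Agent.H.MP_60a1a2_co.Lp
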