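import Pool.Agent.H.MP_60a1a2_co.Lp.Def

/-!
# Independence of `J ∪ C`

The finished proof for the field with two elements is in Lb/MkA.lean (adapt it: signs instead of
characteristic 2). PROOF: as there (`P (gv e) = pv (π e.1) (π e.2)`; `P` is zero on `gv '' C` by `h1`).
-/

set_option autoImplicit false

open Matroid Module Submodule

namespace Pool.Agent.H.MP_60a1a2_co.Lp

private noncomputable def MkAP (K : Type) [Field K] {N m : ℕ} (π : Fin N → Fin m) :
    (Fin N → K) →ₗ[K] (Fin m → K) :=
  Fintype.linearCombination K (fun u => Pi.single (π u) (1 : K))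

private theorem MkA_single (K : Type) [Field K] {N m : ℕ} (π : Fin N → Fin m) (u : Fin N) :
    MkAP K π (Pi.single u 1) = Pi.single (π u) 1 := by
  unfold MkAP
  rw [Fintype.linearCombination_apply_single, one_smul]

private theorem MkA_pv (K : Type) [Field K] {N m : ℕ} (π : Fin N → Fin m) (u v : Fin N) :
    MkAP K π (pv K u v) = pv K (π u) (π v) := by
  unfold pv
  rw [map_sub, MkA_single, MkA_single]

private theorem MkA_self (K : Type) [Field K] {m : ℕ} (a : Fin m) : pv K a a = 0 := by
  unfold pv
  rw [sub_self]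

private theorem MkA_ker (K : Type) [Field K] {N m : ℕ} (π : Fin N → Fin m) (C : Set (Ed N))
    (h2 : ∀ u v, π u = π v → pv K u v ∈ span K (gv K '' C)) (x : Fin N → K)
    (hx : MkAP K π x = 0) : x ∈ span K (gv K '' C) := by
  rcases isEmpty_or_nonempty (Fin N) with he | hne
  · rw [Subsingleton.elim x 0]
    exact zero_mem _
  · let r : Fin m → Fin N := Function.invFun π
    have hr : ∀ u, π (r (π u)) = π u := fun u => Function.invFun_eq ⟨u, rfl⟩
    let L : (Fin m → K) →ₗ[K] (Fin N → K) :=
      Fintype.linearCombination K (fun b => Pi.single (r b) (1 : K))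
    have hL : ∀ b, L (Pi.single b 1) = Pi.single (r b) 1 := fun b => by
      change Fintype.linearCombination K _ _ = _
      rw [Fintype.linearCombination_apply_single, one_smul]
    have hx1 : x = ∑ u, x u • (Pi.single u (1 : K) : Fin N → K) := by
      have := pi_eq_sum_univ' x
      refine this.trans (Finset.sum_congr rfl fun u _ => ?_)
      congr 1
    have hx2 : MkAP K π x = ∑ u, x u • (Pi.single (π u) (1 : K) : Fin m → K) := by
      unfold MkAP
      rw [Fintype.linearCombination_apply]
    have hx3 : ∑ u, x u • (Pi.single (r (π u)) (1 : K) : Fin N → K) = 0 := by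
      have h3 : L (MkAP K π x) = 0 := by rw [hx, map_zero]
      rw [hx2, map_sum] at h3
      rw [← h3]
      refine Finset.sum_congr rfl fun u _ => ?_
      rw [map_smul, hL]
    have hx4 : x = ∑ u, x u • pv K u (r (π u)) := by
      unfold pv
      simp only [smul_sub, Finset.sum_sub_distrib]
      rw [hx3, sub_zero]
      exact hx1
    rw [hx4]
    exact Submodule.sum_mem _ fun u _ => Submodule.smul_mem _ _ (h2 _ _ (hr u).symm)

/-- independence of `J ∪ C` -/
theorem mk_indep (K : Type) [Field K] {N m : ℕ} (π : Fin N → Fin m) (C J : Set (Ed N))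
    (hJC : Disjoint J C) (hC : LinearIndepOn K (gv K) C) (h1 : ∀ e ∈ C, π e.1.1 = π e.1.2)
    (h2 : ∀ u v, π u = π v → pv K u v ∈ span K (gv K '' C)) :
    LinearIndepOn K (gv K) (J ∪ C) ↔
      LinearIndepOn K (fun e : Ed N => pv K (π e.1.1) (π e.1.2)) J := by
  rw [Set.union_comm, ← hC.quotient_iff_union hJC.symm]
  have hle : span K (gv K '' C) ≤ LinearMap.ker (MkAP K π) := by
    rw [span_le]
    rintro _ ⟨e, he, rfl⟩
    change MkAP K π (gv K e) = 0
    unfold gv
    rw [MkA_pv, h1 e he, MkA_self]
  have hinj : Function.Injective ((span K (gv K '' C)).liftQ (MkAP K π) hle) := by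
    rw [← LinearMap.ker_eq_bot]
    refine Submodule.ker_liftQ_eq_bot _ _ _ fun x hx => ?_
    exact MkA_ker K π C h2 x hx
  have hcomp : (fun e : Ed N => pv K (π e.1.1) (π e.1.2)) =
      ((span K (gv K '' C)).liftQ (MkAP K π) hle) ∘ (mkQ (span K (gv K '' C)) ∘ gv K) := by
    funext e
    change pv K (π e.1.1) (π e.1.2) = MkAP K π (gv K e)
    unfold gv
    rw [MkA_pv]
  rw [hcomp]
  exact (LinearMap.linearIndepOn_iff_of_injOn _ hinj.injOn).symm

end Pool.Agent.H.MP_60a1a2_co.Lp
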