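import Pool.Agent.H.MP_60a1a2_co.Lp.Ac
import Pool.Agent.H.MP_60a1a2_co.Lp.MkA

/-!
# Clique minors

The finished proof for the field with two elements is in Lb/Mk.lean (adapt it: signs instead of
characteristic 2). PROOF: as there, with the new form of `ac_iff` (`a e = π e.1`, `b e = π e.2`).
-/

set_option autoImplicit false

open Matroid Module Submodule

namespace Pool.Agent.H.MP_60a1a2_co.Lp

theorem isMK_minor (K : Type) [Field K] {N m : ℕ} {α : Type} (j : Ed N → α)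
    (hj : Function.Injective j) (π : Fin N → Fin m) (C D : Set (Ed N)) (hCD : Disjoint C D)
    (hC : LinearIndepOn K (gv K) C) (h1 : ∀ e ∈ C, π e.1.1 = π e.1.2)
    (h2 : ∀ u v, π u = π v → pv K u v ∈ span K (gv K '' C))
    (h3 : Set.BijOn (fun e : Ed N => s(π e.1.1, π e.1.2)) (C ∪ D)ᶜ {x | ¬ x.IsDiag})
    (hm : 0 < m) :
    IsMK (((lm K (gv K (N := N))).map j hj.injOn) ／ (j '' C) ＼ (j '' D)) m := by
  classical
  set g : Ed N → Sym2 (Fin m) := fun e => s(π e.1.1, π e.1.2) with hg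
  set φ : α → Sym2 (Fin m) := Function.extend j g (fun _ => s(⟨0, hm⟩, ⟨0, hm⟩)) with hφ
  have hφj : ∀ e, φ (j e) = g e := fun e => hj.extend_apply _ _ e
  have hE : (((lm K (gv K (N := N))).map j hj.injOn) ／ (j '' C) ＼ (j '' D)).E =
      j '' (C ∪ D)ᶜ := by
    rw [Matroid.delete_ground, Matroid.contract_ground, Matroid.map_ground, lm_E]
    ext a
    simp only [Set.mem_sdiff, Set.mem_image, Set.mem_univ, true_and, Set.mem_compl_iff,
      Set.mem_union, not_or]
    constructor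
    · rintro ⟨⟨⟨e, rfl⟩, h5⟩, h6⟩
      exact ⟨e, ⟨fun h => h5 ⟨e, h, rfl⟩, fun h => h6 ⟨e, h, rfl⟩⟩, rfl⟩
    · rintro ⟨e, ⟨h5, h6⟩, rfl⟩
      refine ⟨⟨⟨e, rfl⟩, ?_⟩, ?_⟩
      · rintro ⟨f, hf, hfe⟩
        exact h5 (hj hfe ▸ hf)
      · rintro ⟨f, hf, hfe⟩
        exact h6 (hj hfe ▸ hf)
  have hmi : ∀ X : Set (Ed N), ((lm K (gv K (N := N))).map j hj.injOn).Indep (j '' X) ↔
      LinearIndepOn K (gv K) X := by
    intro X
    rw [Matroid.map_image_indep_iff (Set.subset_univ X), lm_indep]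
  refine ⟨φ, ?_, ?_⟩
  · rw [hE]
    refine ⟨?_, ?_, ?_⟩
    · rintro _ ⟨e, he, rfl⟩
      rw [hφj]
      exact h3.mapsTo he
    · rintro _ ⟨e, he, rfl⟩ _ ⟨f, hf, rfl⟩ hef
      rw [hφj, hφj] at hef
      rw [h3.injOn he hf hef]
    · intro x hx
      obtain ⟨e, he, hex⟩ := h3.surjOn hx
      exact ⟨j e, ⟨e, he, rfl⟩, (hφj e).trans hex⟩
  · intro I hI
    rw [hE] at hI
    obtain ⟨J, hJ, rfl⟩ := Set.subset_image_iff.mp hI
    have hJC : Disjoint J C := by
      rw [Set.disjoint_left]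
      intro e he he'
      exact hJ he (Or.inl he')
    have hJD : Disjoint J D := by
      rw [Set.disjoint_left]
      intro e he he'
      exact hJ he (Or.inr he')
    have himg : φ '' (j '' J) = g '' J := by
      rw [Set.image_image]
      exact Set.image_congr fun e _ => hφj e
    have hne : ∀ e ∈ J, π e.1.1 ≠ π e.1.2 := by
      intro e he h5
      exact h3.mapsTo (hJ he) (Sym2.mk_isDiag_iff.mpr h5)
    have hac := ac_iff K (fun e : Ed N => π e.1.1) (fun e : Ed N => π e.1.2) J hne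
      (h3.injOn.mono hJ)
    rw [himg, Matroid.delete_indep_iff, ((hmi C).mpr hC).contract_indep_iff, ← Set.image_union,
      hmi, mk_indep K π C J hJC hC h1 h2]
    constructor
    · rintro ⟨⟨_, h5⟩, _⟩
      exact hac.mpr h5
    · intro h5
      exact ⟨⟨(Set.disjoint_image_iff hj).mpr hJC, hac.mp h5⟩, (Set.disjoint_image_iff hj).mpr hJD⟩

end Pool.Agent.H.MP_60a1a2_co.Lp
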