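import Pool.Agent.H.MP_60a1a2_co.Lp.LmC

/-!
# No `U_{k,2k}`-minor

The finished proof for the field with two elements is in Lb/Nou.lean (adapt it: signs instead of
characteristic 2). PROOF: new: `lm_minor` gives vectors `y e` in a quotient. Let `x_1, …, x_k, z_1, …, z_k` be different elements of the minor. Every `k` elements are
independent, every `k + 1` are dependent. So `y z_j = ∑ i, c j i • y x_i` with all `c j i ≠ 0` (otherwise the `k` elements `x_i'` (`i' ≠ i`), `z_j` are dependent). There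
are `k ≥ p` elements `z_j` but only `p - 1` nonzero values `c j 1 / c j 2` (`k ≥ p ≥ 2`), so `c j 1 / c j 2 = c l 1 / c l 2` for some `j ≠ l`. With
`t = c j 1 / c l 1` the vector `y z_j - t • y z_l` is in the span of `y x_3, …, y x_k`, so the `k` elements `z_j, z_l, x_3, …, x_k` are dependent: contradiction.
-/

set_option autoImplicit false

open Matroid Module Submodule

namespace Pool.Agent.H.MP_60a1a2_co.Lp

private theorem Nou_sum {K : Type} [Field K] {E : Type} {Q : Type} [AddCommGroup Q] [Module K Q]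
    [DecidableEq E] (y : E → Q) (F X : Finset E) {k : ℕ} (hX : X ⊆ F) (hXk : X.card = k) {a : E}
    (ha : a ∈ F) (haX : a ∉ X)
    (h : ∀ I : Finset E, I ⊆ F → (LinearIndepOn K y (I : Set E) ↔ I.card ≤ k)) :
    ∃ c : E → K, y a = ∑ x ∈ X, c x • y x ∧ ∀ x ∈ X, c x ≠ 0 := by
  have h2 : ¬ LinearIndepOn K y ((insert a X : Finset E) : Set E) := by
    rw [h _ (Finset.insert_subset ha hX), Finset.card_insert_of_notMem haX]
    omega
  have h1 : LinearIndepOn K y (X : Set E) := (h X hX).2 hXk.le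
  rw [Finset.coe_insert, linearIndepOn_insert (by simpa using haX)] at h2
  have h3 : y a ∈ span K (y '' (X : Set E)) := by
    by_contra h4
    exact h2 ⟨h1, h4⟩
  obtain ⟨c, hc⟩ := (Submodule.mem_span_image_finset_iff_exists_fun' K).1 h3
  refine ⟨c, hc.symm, fun x hx hc0 => ?_⟩
  have h5 : y a ∈ span K (y '' ((X.erase x : Finset E) : Set E)) := by
    rw [← hc, ← Finset.sum_erase_add _ _ hx, hc0, zero_smul, add_zero]
    refine Submodule.sum_mem _ fun z hz => Submodule.smul_mem _ _ (Submodule.subset_span ?_)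
    exact ⟨z, hz, rfl⟩
  have hae : a ∉ X.erase x := fun h6 => haX (Finset.mem_of_mem_erase h6)
  have h6 : LinearIndepOn K y ((insert a (X.erase x) : Finset E) : Set E) := by
    rw [h _ (Finset.insert_subset ha ((Finset.erase_subset _ _).trans hX)),
      Finset.card_insert_of_notMem hae, Finset.card_erase_of_mem hx, hXk]
    have : 0 < X.card := Finset.card_pos.2 ⟨x, hx⟩
    omega
  rw [Finset.coe_insert, linearIndepOn_insert (fun h7 => hae (Finset.mem_coe.1 h7))] at h6
  exact h6.2 h5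

theorem no_U {p : ℕ} [Fact p.Prime] {E : Type} [Finite E] {W : Type} [AddCommGroup W]
    [Module (ZMod p) W] (v : E → W) {k : ℕ} (hk : p ≤ k) : ¬ HasUMinor (lm (ZMod p) v) k := by
  classical
  have hp2 : 2 ≤ p := (Fact.out : p.Prime).two_le
  rintro ⟨N, hN, hcard, hI⟩
  obtain ⟨C, -, hC⟩ := lm_minor (ZMod p) v hN
  obtain ⟨y, hy⟩ : ∃ y : E → W ⧸ span (ZMod p) (v '' C),
      y = fun e => (span (ZMod p) (v '' C)).mkQ (v e) := ⟨_, rfl⟩
  rw [← hy] at hC
  have := Fintype.ofFinite E
  obtain ⟨F, hF⟩ : ∃ F : Finset E, (F : Set E) = N.E := ⟨N.E.toFinset, by simp⟩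
  have h : ∀ I : Finset E, I ⊆ F →
      (LinearIndepOn (ZMod p) y (I : Set E) ↔ I.card ≤ k) := by
    intro I hIF
    have hIE : (I : Set E) ⊆ N.E := by
      rw [← hF]
      exact_mod_cast hIF
    rw [← hC _ hIE, hI _ hIE, Set.encard_coe_eq_coe_finsetCard]
    exact Nat.cast_le
  have hFc : F.card = 2 * k := by
    rw [← hF, Set.encard_coe_eq_coe_finsetCard] at hcard
    exact_mod_cast hcard
  obtain ⟨X, hX, hXk⟩ := Finset.exists_subset_card_eq (s := F) (n := k) (by omega)
  have hXc : (F \ X).card = k := by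
    rw [Finset.card_sdiff_of_subset hX]
    omega
  have hex : ∀ a, a ∈ F \ X → ∃ c : E → ZMod p, y a = ∑ x ∈ X, c x • y x ∧ ∀ x ∈ X, c x ≠ 0 := by
    intro a ha
    rw [Finset.mem_sdiff] at ha
    exact Nou_sum y F X hX hXk ha.1 ha.2 h
  choose! c hc hc0 using hex
  obtain ⟨x1, hx1, x2, hx2, hx12⟩ := Finset.one_lt_card.1 (show 1 < X.card by omega)
  have hcz : (Finset.univ.erase (0 : ZMod p)).card < (F \ X).card := by
    rw [Finset.card_erase_of_mem (Finset.mem_univ _), Finset.card_univ, ZMod.card, hXc]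
    omega
  obtain ⟨a, ha, b, hb, hab, hr⟩ := Finset.exists_ne_map_eq_of_card_lt_of_maps_to hcz
    (f := fun a => c a x1 / c a x2) (by
      intro a ha
      have ha' : a ∈ F \ X := ha
      simp only [Finset.coe_erase, Finset.coe_univ, Set.mem_sdiff, Set.mem_univ, true_and,
        Set.mem_singleton_iff]
      exact div_ne_zero (hc0 a ha' x1 hx1) (hc0 a ha' x2 hx2))
  obtain ⟨t, ht⟩ : ∃ t : ZMod p, t = c a x1 / c b x1 := ⟨_, rfl⟩
  have n1 := hc0 a ha x1 hx1
  have n2 := hc0 a ha x2 hx2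
  have n3 := hc0 b hb x1 hx1
  have n4 := hc0 b hb x2 hx2
  have t1 : c a x1 - t * c b x1 = 0 := by
    rw [ht, div_mul_cancel₀ _ n3, sub_self]
  have t2 : c a x2 - t * c b x2 = 0 := by
    have hr' : c a x1 / c a x2 = c b x1 / c b x2 := hr
    rw [div_eq_div_iff n2 n4] at hr'
    rw [ht]
    field_simp
    linear_combination -hr'
  obtain ⟨Y, hY⟩ : ∃ Y, Y = (X.erase x1).erase x2 := ⟨_, rfl⟩
  have hx2' : x2 ∈ X.erase x1 := Finset.mem_erase.2 ⟨hx12.symm, hx2⟩
  have hsum : y a - t • y b = ∑ x ∈ Y, (c a x - t * c b x) • y x := by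
    have e1 : y a - t • y b = ∑ x ∈ X, (c a x - t * c b x) • y x := by
      rw [hc a ha, hc b hb, Finset.smul_sum, ← Finset.sum_sub_distrib]
      refine Finset.sum_congr rfl fun x _ => ?_
      rw [sub_smul, mul_smul]
    rw [e1, hY, ← Finset.sum_erase_add _ _ hx1, t1, zero_smul, add_zero,
      ← Finset.sum_erase_add _ _ hx2', t2, zero_smul, add_zero]
  rw [Finset.mem_sdiff] at ha hb
  have hYX : Y ⊆ X := by
    rw [hY]
    exact (Finset.erase_subset _ _).trans (Finset.erase_subset _ _)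
  have hYc : Y.card = k - 2 := by
    rw [hY, Finset.card_erase_of_mem hx2', Finset.card_erase_of_mem hx1, hXk]
    omega
  have hbY : b ∉ Y := fun h6 => hb.2 (hYX h6)
  have haY : a ∉ insert b Y := by
    rw [Finset.mem_insert]
    rintro (h6 | h6)
    · exact hab h6
    · exact ha.2 (hYX h6)
  have h6 : LinearIndepOn (ZMod p) y ((insert a (insert b Y) : Finset E) : Set E) := by
    rw [h _ (Finset.insert_subset ha.1 (Finset.insert_subset hb.1 (hYX.trans hX))),
      Finset.card_insert_of_notMem haY, Finset.card_insert_of_notMem hbY, hYc]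
    omega
  rw [Finset.coe_insert, linearIndepOn_insert (fun h7 => haY (Finset.mem_coe.1 h7))] at h6
  apply h6.2
  have e2 : y a = t • y b + ∑ x ∈ Y, (c a x - t * c b x) • y x := by
    rw [← hsum]
    abel
  rw [e2]
  refine Submodule.add_mem _ ?_ (Submodule.sum_mem _ fun z hz => ?_)
  · exact Submodule.smul_mem _ _ (Submodule.subset_span ⟨b, by simp, rfl⟩)
  · exact Submodule.smul_mem _ _ (Submodule.subset_span ⟨z, by simp [hz], rfl⟩)

end Pool.Agent.H.MP_60a1a2_co.Lp
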