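import Pool.Agent.H.MP_60a1a2_co.Lp.Def

/-!
# Projective geometries are large

The finished proof for the field with two elements is in Lb/Pgc.lean (adapt it: signs instead of
characteristic 2). PROOF: as there; the number of points is `∑ i < k + 1, q ^ i`, `q = Nat.card F`, and `p ≤ q` as `F` has characteristic `p` (`ZMod p` embeds into `F`, or
`Nat.card F` is a power of `p`: `FiniteField.card`).
-/

set_option autoImplicit false

open Matroid Module Submodule

namespace Pool.Agent.H.MP_60a1a2_co.Lp

theorem pg_large {α : Type} {M : Matroid α} {k : ℕ} {F : Type} [Field F] [Finite F]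
    (p : ℕ) [Fact p.Prime] [CharP F p] (h : HasPGMinorF M k F) : ∃ N : Matroid α, N ≤m M ∧
      (∀ x ∈ N.E, ∀ y ∈ N.E, N.Indep {x, y}) ∧ N.eRank ≤ ((k + 1 : ℕ) : ℕ∞) ∧
        ∑ i ∈ Finset.range (k + 1), p ^ i ≤ N.E.ncard := by
  classical
  obtain ⟨N, hN, φ, hφ, hI⟩ := h
  refine ⟨N, hN, ?_, ?_, ?_⟩
  · intro x hx y hy
    rw [← hφ.image_eq] at hx hy
    obtain ⟨a, -, rfl⟩ := hx
    obtain ⟨b, -, rfl⟩ := hy
    rw [← Set.image_pair, hI]
    have key : LinearIndepOn F
        (Projectivization.rep : Projectivization F (Fin (k + 1) → F) → _) {a, b} := by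
      by_cases hpq : a = b
      · subst hpq
        rw [Set.pair_eq_singleton]
        exact (linearIndepOn_singleton_iff F).2 (Projectivization.rep_nonzero a)
      · rw [LinearIndepOn.pair_iff _ hpq]
        have h1 := (Projectivization.independent_iff.1
          ((Projectivization.independent_pair_iff_ne a b).2 hpq))
        have h2 : LinearIndependent F ![a.rep, b.rep] := by
          have e : Projectivization.rep ∘ ![a, b] = ![a.rep, b.rep] := by
            funext i
            fin_cases i <;> rfl
          rwa [e] at h1
        exact LinearIndependent.pair_iff.1 h2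
    exact key
  · obtain ⟨B, hB⟩ := N.exists_isBase
    rw [← hB.encard_eq_eRank]
    have hBE : B ⊆ φ '' Set.univ := by
      rw [hφ.image_eq]
      exact hB.subset_ground
    have hBI : φ '' (φ ⁻¹' B) = B := by
      rw [Set.image_preimage_eq_inter_range, ← Set.image_univ]
      exact Set.inter_eq_left.2 hBE
    have hind : N.Indep (φ '' (φ ⁻¹' B)) := by
      rw [hBI]
      exact hB.indep
    rw [hI] at hind
    have hfin : Finite (φ ⁻¹' B) := by
      exact hind.finite
    have hft : Fintype (φ ⁻¹' B) := Fintype.ofFinite _
    have h1 := hind.fintype_card_le_finrank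
    rw [Module.finrank_fin_fun] at h1
    rw [← hBI]
    refine (Set.encard_image_le _ _).trans ?_
    rw [Set.encard_eq_coe_toFinset_card, Set.toFinset_card]
    exact_mod_cast h1
  · have h1 : N.E.ncard = Nat.card (Projectivization F (Fin (k + 1) → F)) := by
      rw [← hφ.image_eq, hφ.injOn.ncard_image, Set.ncard_univ]
    rw [h1, Projectivization.card_of_finrank F (Fin (k + 1) → F) (Module.finrank_fin_fun F)]
    have hq : p ≤ Nat.card F := by
      have h2 := Nat.card_le_card_of_injective (ZMod.castHom (dvd_refl p) F)
        (ZMod.castHom (dvd_refl p) F).injective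
      rwa [Nat.card_zmod] at h2
    exact Finset.sum_le_sum fun i _ => Nat.pow_le_pow_left hq i

end Pool.Agent.H.MP_60a1a2_co.Lp
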