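import Pool.Agent.H.MP_60a1a2_co.Lp.Def

/-!
# The sets for the minors

The finished proof for the field with two elements is in Lb/Two.lean (adapt it: signs instead of
characteristic 2). PROOF: as there (`pv u u = 0`, `pv u v = pv 0 v - pv 0 u`).
-/

set_option autoImplicit false

open Matroid Module Submodule

namespace Pool.Agent.H.MP_60a1a2_co.Lp

/-- the data for a clique minor `M(K_m)` of `M(K_N)` (see `isMK_minor`) with the edges `{i, i + 1}`, `i < n` -/
def Mdat (K : Type) [Field K] (n N m : ℕ) (π : Fin N → Fin m) (C D : Set (Ed N)) : Prop :=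
  Disjoint C D ∧ LinearIndepOn K (gv K) C ∧ (∀ e ∈ C, π e.1.1 = π e.1.2) ∧
    (∀ u v, π u = π v → pv K u v ∈ span K (gv K '' C)) ∧
      Set.BijOn (fun e : Ed N => s(π e.1.1, π e.1.2)) (C ∪ D)ᶜ {x | ¬ x.IsDiag} ∧
        ∀ i, i < n → ∀ h : i + 1 < N, pe i h ∈ (C ∪ D)ᶜ

theorem two_id (K : Type) [Field K] (n N : ℕ) :
    ∃ (π : Fin N → Fin N) (C D : Set (Ed N)), Mdat K n N N π C D := by
  refine ⟨id, ∅, ∅, disjoint_bot_left, linearIndepOn_empty K (gv K), fun e he => he.elim, ?_, ?_,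
    ?_⟩
  · intro u v h
    have h' : u = v := h
    subst h'
    have : pv K u u = 0 := sub_self _
    rw [this]
    exact zero_mem _
  · refine ⟨?_, ?_, ?_⟩
    · intro e _
      show ¬ Sym2.IsDiag s(e.1.1, e.1.2)
      rw [Sym2.mk_isDiag_iff]
      exact ne_of_lt e.2
    · intro e _ e' _ h
      have h' : s(e.1.1, e.1.2) = s(e'.1.1, e'.1.2) := h
      rw [Sym2.eq_iff] at h'
      rcases h' with ⟨h1, h2⟩ | ⟨h1, h2⟩
      · exact Subtype.ext (Prod.ext h1 h2)
      · exfalso
        have h3 := e.2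
        have h4 := e'.2
        rw [h1, h2] at h3
        exact lt_asymm h3 h4
    · intro x hx
      induction x using Sym2.ind with
      | _ a b =>
        have hab : a ≠ b := by
          intro h
          exact hx (Sym2.mk_isDiag_iff.2 h)
        rcases lt_or_gt_of_ne hab with h | h
        · exact ⟨⟨(a, b), h⟩, by simp, rfl⟩
        · exact ⟨⟨(b, a), h⟩, by simp, Sym2.eq_swap⟩
  · intro i _ h
    simp

private def tpi (n N : ℕ) (hn : 0 < n) (u : Fin N) : Fin n :=
  if h : u.1 < n then ⟨u.1, h⟩ else ⟨0, hn⟩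

private theorem tpi_lt {n N : ℕ} (hn : 0 < n) (u : Fin N) (h : u.1 < n) :
    (tpi n N hn u).1 = u.1 := by
  unfold tpi; rw [dif_pos h]

private theorem tpi_ge {n N : ℕ} (hn : 0 < n) (u : Fin N) (h : ¬ u.1 < n) :
    (tpi n N hn u).1 = 0 := by
  unfold tpi; rw [dif_neg h]

private def tC (n N : ℕ) : Set (Ed N) := {e | e.1.1.1 = 0 ∧ n ≤ e.1.2.1}

private def tS (n N : ℕ) : Set (Ed N) :=
  {e | (e.1.2.1 < n ∧ ¬ (e.1.1.1 = 0 ∧ e.1.2.1 = n - 1)) ∨ (e.1.1.1 = n - 1 ∧ e.1.2.1 = n)}

private theorem tSC {n N : ℕ} (hn : 3 ≤ n) : (tC n N ∪ (tS n N ∪ tC n N)ᶜ)ᶜ = tS n N := by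
  ext e
  have h : e ∈ tS n N → e ∉ tC n N := by
    rintro (⟨h1, _⟩ | ⟨h1, _⟩) ⟨h2, h3⟩ <;> omega
  simp only [Set.mem_compl_iff, Set.mem_union, not_or, not_not]
  constructor
  · rintro ⟨h1, h2⟩
    by_contra h3
    exact h2 ⟨h3, h1⟩
  · intro h1
    exact ⟨h h1, fun h2 => h2.1 h1⟩

private theorem tC_indep (K : Type) [Field K] {n N : ℕ} (hn : 3 ≤ n) :
    LinearIndepOn K (gv K) (tC n N) := by
  classical
  let L : (Fin N → K) →ₗ[K] (tC n N → K) :=
    LinearMap.pi fun e => -LinearMap.proj e.1.1.2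
  have h1 : (fun e : tC n N => L (gv K e.1)) = fun e => Pi.single e (1 : K) := by
    funext e e'
    show -(gv K e.1 e'.1.1.2) = (Pi.single e (1 : K) : tC n N → K) e'
    obtain ⟨h2, h3⟩ := e.2
    obtain ⟨h4, h5⟩ := e'.2
    unfold gv pv
    rw [Pi.sub_apply, Pi.single_apply, Pi.single_apply, Pi.single_apply, if_neg, zero_sub,
      neg_neg]
    · by_cases h : e' = e
      · rw [if_pos h, if_pos (by rw [h])]
      · rw [if_neg h, if_neg]
        intro h6
        apply h
        apply Subtype.ext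
        apply Subtype.ext
        refine Prod.ext (Fin.ext ?_) h6
        omega
    · intro h6
      have := congrArg Fin.val h6
      omega
  refine LinearIndependent.of_comp L ?_
  show LinearIndependent K (fun e : tC n N => L (gv K e.1))
  rw [h1]
  exact Pi.linearIndependent_single_one _ _

private theorem tr_mem (K : Type) [Field K] {n N : ℕ} (hn : 0 < n) (hN : n ≤ N) (u : Fin N) :
    pv K (⟨(tpi n N hn u).1, (tpi n N hn u).2.trans_le hN⟩ : Fin N) u ∈
      span K (gv K '' tC n N) := by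
  by_cases h : u.1 < n
  · have h1 : (⟨(tpi n N hn u).1, (tpi n N hn u).2.trans_le hN⟩ : Fin N) = u :=
      Fin.ext (tpi_lt hn u h)
    rw [h1]
    have : pv K u u = 0 := sub_self _
    rw [this]
    exact zero_mem _
  · have h1 := tpi_ge hn u h
    refine subset_span ⟨⟨(⟨(tpi n N hn u).1, (tpi n N hn u).2.trans_le hN⟩, u), ?_⟩, ⟨h1, ?_⟩, rfl⟩
    · show (tpi n N hn u).1 < u.1
      omega
    · show n ≤ u.1
      omega

theorem two_n (K : Type) [Field K] {n N : ℕ} (hn : 3 ≤ n) (hN : n + 2 ≤ N) :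
    ∃ (π : Fin N → Fin n) (C D : Set (Ed N)), Mdat K n N n π C D := by
  have hn0 : 0 < n := by omega
  have hnN : n ≤ N := by omega
  refine ⟨tpi n N hn0, tC n N, (tS n N ∪ tC n N)ᶜ, ?_, tC_indep K hn, ?_, ?_, ?_, ?_⟩
  · rw [Set.disjoint_left]
    intro e he he'
    exact he' (Or.inr he)
  · rintro e ⟨h1, h2⟩
    apply Fin.ext
    rw [tpi_lt hn0 e.1.1 (by omega), tpi_ge hn0 e.1.2 (by omega), h1]
  · intro u v h
    have h1 := tr_mem K hn0 hnN u
    have h2 := tr_mem K hn0 hnN v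
    rw [← h] at h2
    have h3 := sub_mem h2 h1
    have h4 : ∀ w : Fin N, pv K w v - pv K w u = pv K u v := by
      intro w
      unfold pv
      abel
    rwa [h4] at h3
  · rw [tSC hn]
    refine ⟨?_, ?_, ?_⟩
    · intro e he
      show ¬ Sym2.IsDiag s(tpi n N hn0 e.1.1, tpi n N hn0 e.1.2)
      rw [Sym2.mk_isDiag_iff]
      intro h
      have h1 := congrArg Fin.val h
      have h2 : e.1.1.1 < e.1.2.1 := e.2
      rcases he with ⟨h3, _⟩ | ⟨h3, h4⟩
      · rw [tpi_lt hn0 e.1.1 (by omega), tpi_lt hn0 e.1.2 h3] at h1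
        omega
      · rw [tpi_lt hn0 e.1.1 (by omega), tpi_ge hn0 e.1.2 (by omega)] at h1
        omega
    · intro e he e' he' h
      have h' : s(tpi n N hn0 e.1.1, tpi n N hn0 e.1.2) =
        s(tpi n N hn0 e'.1.1, tpi n N hn0 e'.1.2) := h
      rw [Sym2.eq_iff, Fin.ext_iff, Fin.ext_iff, Fin.ext_iff, Fin.ext_iff] at h'
      have h2 : e.1.1.1 < e.1.2.1 := e.2
      have h3 : e'.1.1.1 < e'.1.2.1 := e'.2
      suffices hs : e.1.1.1 = e'.1.1.1 ∧ e.1.2.1 = e'.1.2.1 from
        Subtype.ext (Prod.ext (Fin.ext hs.1) (Fin.ext hs.2))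
      rcases he with ⟨h4, h5⟩ | ⟨h4, h5⟩
      · rw [tpi_lt hn0 e.1.1 (by omega), tpi_lt hn0 e.1.2 h4] at h'
        rcases he' with ⟨h6, h7⟩ | ⟨h6, h7⟩
        · rw [tpi_lt hn0 e'.1.1 (by omega), tpi_lt hn0 e'.1.2 h6] at h'
          omega
        · rw [tpi_lt hn0 e'.1.1 (by omega), tpi_ge hn0 e'.1.2 (by omega)] at h'
          omega
      · rw [tpi_lt hn0 e.1.1 (by omega), tpi_ge hn0 e.1.2 (by omega)] at h'
        rcases he' with ⟨h6, h7⟩ | ⟨h6, h7⟩
        · rw [tpi_lt hn0 e'.1.1 (by omega), tpi_lt hn0 e'.1.2 h6] at h'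
          omega
        · omega
    · intro x hx
      have key : ∀ a b : Fin n, a < b → ∃ e ∈ tS n N,
          s(tpi n N hn0 e.1.1, tpi n N hn0 e.1.2) = s(a, b) := by
        intro a b hab
        have hab' : a.1 < b.1 := hab
        have ha := a.2
        have hb := b.2
        by_cases h : a.1 = 0 ∧ b.1 = n - 1
        · refine ⟨⟨(⟨n - 1, by omega⟩, ⟨n, by omega⟩), ?_⟩, Or.inr ⟨rfl, rfl⟩, ?_⟩
          · show n - 1 < n
            omega
          · rw [Sym2.eq_swap]
            rw [Sym2.eq_iff]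
            left
            constructor
            · apply Fin.ext
              rw [tpi_ge hn0 _ (by show ¬ n < n; omega), h.1]
            · apply Fin.ext
              rw [tpi_lt hn0 _ (by show n - 1 < n; omega), h.2]
        · refine ⟨⟨(⟨a.1, by omega⟩, ⟨b.1, by omega⟩), hab'⟩, Or.inl ⟨hb, h⟩, ?_⟩
          rw [Sym2.eq_iff]
          left
          constructor
          · apply Fin.ext
            exact tpi_lt hn0 _ ha
          · apply Fin.ext
            exact tpi_lt hn0 _ hb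
      induction x using Sym2.ind with
      | _ a b =>
        have hab : a ≠ b := by
          intro h
          exact hx (Sym2.mk_isDiag_iff.2 h)
        rcases lt_or_gt_of_ne hab with h | h
        · exact key a b h
        · obtain ⟨e, he, h1⟩ := key b a h
          exact ⟨e, he, h1.trans Sym2.eq_swap⟩
  · intro i hi h
    rw [tSC hn]
    by_cases h1 : i + 1 < n
    · refine Or.inl ⟨h1, ?_⟩
      show ¬ (i = 0 ∧ i + 1 = n - 1)
      omega
    · refine Or.inr ⟨?_, ?_⟩
      · show i = n - 1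
        omega
      · show i + 1 = n
        omega

end Pool.Agent.H.MP_60a1a2_co.Lp
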