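import Pool.Agent.H.MP_60a1a2_co.Lp.Sd
import Pool.Agent.H.MP_60a1a2_co.Lp.Mk
import Pool.Agent.H.MP_60a1a2_co.Lp.Two
import Pool.Agent.H.MP_60a1a2_co.Lp.Intc
import Pool.Agent.H.MP_60a1a2_co.Lp.Nou
import Pool.Agent.H.MP_60a1a2_co.Lp.Cnt
import Pool.Agent.H.MP_60a1a2_co.Lp.Pgc
import Pool.Agent.H.MP_60a1a2_co.Lp.Chr

/-!
# Lower bound for Q1 over prime fields: the theorem

The finished proof for the field with two elements is in Lb/Fin.lean (adapt it: signs instead of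
characteristic 2). PROOF: as there; `pg_large` if the characteristic of `F` is `p`, otherwise `chr` (with `lm_minor`).
-/

set_option autoImplicit false

open Matroid Module Submodule

namespace Pool.Agent.H.MP_60a1a2_co.Lp

theorem pair (K : Type) [Field K] {n N m : ℕ} (hN : n + 2 ≤ N) (hm : 0 < m)
    {π : Fin N → Fin m} {C D : Set (Ed N)} (h : Mdat K n N m π C D) :
    ∃ N1 N2 : Matroid (Ed N ⊕ Ed N), N1 ≤m gm K n N ∧ N2 ≤m gm K n N ∧
      IsMK N1 m ∧ IsMK N2✶ m ∧ Interconnected (gm K n N) N1 N2 n := by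
  obtain ⟨hCD, hC, h1, h2, h3, h4⟩ := h
  have hd : Disjoint (Sum.inr '' C : Set (Ed N ⊕ Ed N)) (Sum.inr '' D) :=
    (Set.disjoint_image_iff Sum.inr_injective).2 hCD
  refine ⟨gm K n N ＼ Set.range Sum.inr ／ (Sum.inl '' C) ＼ (Sum.inl '' D),
    gm K n N ＼ Set.range Sum.inl ／ (Sum.inr '' D) ＼ (Sum.inr '' C), ?_, ?_, ?_, ?_, ?_⟩
  · exact (contract_delete_isMinor _ _ _).trans ⟨∅, _, by rw [contract_empty]⟩
  · exact (contract_delete_isMinor _ _ _).trans ⟨∅, _, by rw [contract_empty]⟩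
  · rw [gm_left K hN]
    exact isMK_minor K Sum.inl Sum.inl_injective π C D hCD hC h1 h2 h3 hm
  · rw [gm_right, dual_contract_delete,
      ← map_dual (M := lm K (gv K)) (hf := Sum.inr_injective.injOn), dual_dual,
      ← contract_delete_comm _ hd]
    exact isMK_minor K Sum.inr Sum.inr_injective π C D hCD hC h1 h2 h3 hm
  · refine con K hN ?_ ?_ ?_ ?_
    · intro x hx
      rcases x with e | e
      · exact ⟨e, rfl⟩
      · exact absurd ⟨e, rfl⟩ hx.1.1.2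
    · intro x hx
      rcases x with e | e
      · exact absurd ⟨e, rfl⟩ hx.1.1.2
      · exact ⟨e, rfl⟩
    · intro i hi h
      have h5 := h4 i hi h
      refine ⟨⟨⟨Set.mem_univ _, ?_⟩, ?_⟩, ?_⟩
      · rintro ⟨e, he⟩
        exact absurd he (by simp)
      · rintro ⟨e, he, hee⟩
        exact h5 (Or.inl (Sum.inl_injective hee ▸ he))
      · rintro ⟨e, he, hee⟩
        exact h5 (Or.inr (Sum.inl_injective hee ▸ he))
    · intro i hi h
      have h5 := h4 i hi h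
      refine ⟨⟨⟨Set.mem_univ _, ?_⟩, ?_⟩, ?_⟩
      · rintro ⟨e, he⟩
        exact absurd he (by simp)
      · rintro ⟨e, he, hee⟩
        exact h5 (Or.inr (Sum.inr_injective hee ▸ he))
      · rintro ⟨e, he, hee⟩
        exact h5 (Or.inl (Sum.inr_injective hee ▸ he))

/-- the characteristic of `F` is `p` -/
theorem char_eq {p k : ℕ} [hp : Fact p.Prime] (hk : 2 ≤ k) {E : Type} [Finite E] {W : Type}
    [AddCommGroup W] [Module (ZMod p) W] (v : E → W) (F : Type) [Field F] [Finite F]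
    (hF : HasPGMinorF (lm (ZMod p) v) k F) : CharP F p := by
  obtain ⟨r, hr⟩ := CharP.exists F
  have hrp : r.Prime := CharP.char_is_prime F r
  obtain ⟨N, hN, φ, hφ, hI⟩ := hF
  obtain ⟨C, -, hC⟩ := lm_minor (ZMod p) v hN
  have h0 : ((r : ℕ) : ZMod p) = 0 := by
    refine chr (ZMod p) hk F r (fun P => (span (ZMod p) (v '' C)).mkQ (v (φ P))) fun I => ?_
    have hs : φ '' I ⊆ N.E := by
      rintro _ ⟨P, -, rfl⟩
      exact hφ.mapsTo (Set.mem_univ P)
    rw [← hI I, hC _ hs]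
    exact ⟨fun h => h.image_of_comp φ (fun e => (span (ZMod p) (v '' C)).mkQ (v e)),
      fun h => h.comp_of_image (hφ.injOn.mono (Set.subset_univ I))⟩
  have h1 : p ∣ r := (ZMod.natCast_eq_zero_iff r p).1 h0
  have h2 : p = r := (Nat.prime_dvd_prime_iff_eq hp.out hrp).1 h1
  rw [h2]
  exact hr

theorem lower {k n N p : ℕ} [hp : Fact p.Prime] (hk : p ≤ k) (hn : 3 ≤ n) (hN : n + 2 ≤ N)
    (h : 2 * (k + n + 1) * (k + n + 2) < ∑ i ∈ Finset.range (k + 1), p ^ i) :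
    ∃ (α : Type) (M : Matroid α), M.Finite ∧
      (∃ (W : Type) (_ : AddCommGroup W) (_ : Module (ZMod p) W) (v : α → W),
        ∀ I ⊆ M.E, M.Indep I ↔ LinearIndepOn (ZMod p) v I) ∧
      (∃ N1 N2, N1 ≤m M ∧ N2 ≤m M ∧ IsMK N1 N ∧ IsMK N2✶ N ∧ Interconnected M N1 N2 n) ∧
      (∃ N1 N2, N1 ≤m M ∧ N2 ≤m M ∧ IsMK N1 n ∧ IsMK N2✶ n ∧ Interconnected M N1 N2 n) ∧
      ¬ HasUMinor M k ∧ ∀ (F : Type) [Field F] [Finite F], ¬ HasPGMinorF M k F := by
  obtain ⟨π, C, D, hd⟩ := two_id (ZMod p) n N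
  obtain ⟨π', C', D', hd'⟩ := two_n (ZMod p) hn hN
  refine ⟨Ed N ⊕ Ed N, gm (ZMod p) n N, lm_finite _ _, ⟨_, _, _, vec (ZMod p) n N,
    fun I _ => Iff.rfl⟩, pair _ hN (by omega) hd, pair _ hN (by omega) hd', no_U _ hk, ?_⟩
  intro F _ _ hF
  have hc : CharP F p := char_eq (hp.out.two_le.trans hk) _ F hF
  obtain ⟨Nm, h1, h2, h3, h4⟩ := pg_large p hF
  have h5 := cnt (ZMod p) hN h1 h2 h3
  have h6 : 2 * (k + 1 + n) * (k + 1 + n + 1) = 2 * (k + n + 1) * (k + n + 2) := by ring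
  omega

end Pool.Agent.H.MP_60a1a2_co.Lp
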