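import Pool.Agent.H.MP_60a1a2_co.Lp.Def

/-!
# Vector matroids: closure, spanning sets, rank

The finished proof for the field with two elements is in Lb/LmA.lean (adapt it: signs instead of
characteristic 2). PROOF: as there.
-/

set_option autoImplicit false

open Matroid Module Submodule

namespace Pool.Agent.H.MP_60a1a2_co.Lp

variable (K : Type) [Field K] {E : Type} [Finite E] {W : Type} [AddCommGroup W] [Module K W]

private theorem LmA_span {f : E → W} {I A : Set E} (hI : (lm K f).IsBasis I A) :
    span K (f '' A) = span K (f '' I) := by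
  apply le_antisymm
  · rw [Submodule.span_le]
    rintro _ ⟨e, he, rfl⟩
    by_cases heI : e ∈ I
    · exact Submodule.subset_span ⟨e, heI, rfl⟩
    · by_contra hn
      have : (lm K f).Indep (insert e I) := (linearIndepOn_insert heI).2 ⟨hI.indep, hn⟩
      exact heI (hI.mem_of_insert_indep he this)
  · exact Submodule.span_mono (Set.image_mono hI.subset)

theorem lm_cl (v : E → W) {A : Set E} {e : E} :
    e ∈ (lm K v).closure A ↔ v e ∈ span K (v '' A) := by
  obtain ⟨I, hI⟩ := (lm K v).exists_isBasis A (by simp)
  rw [← hI.closure_eq_closure, LmA_span K hI, hI.indep.mem_closure_iff']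
  have hind : LinearIndepOn K v I := hI.indep
  rw [hind.mem_span_iff]
  simp

theorem lm_spanning (v : E → W) {X : Set E} :
    (lm K v).Spanning X ↔ ∀ e, v e ∈ span K (v '' X) := by
  rw [spanning_iff_closure_eq (by simp), lm_E, Set.eq_univ_iff_forall]
  exact forall_congr' fun e => lm_cl K v

theorem lm_eRk (v : E → W) (X : Set E) :
    (lm K v).eRk X = (finrank K (span K (v '' X)) : ℕ) := by
  obtain ⟨I, hI⟩ := (lm K v).exists_isBasis X (by simp)
  have hind : LinearIndepOn K v I := hI.indep
  rw [← hI.encard_eq_eRk, LmA_span K hI, Lb_finrank K hind]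
  exact ((Set.toFinite I).cast_ncard_eq).symm

theorem lm_eRank (v : E → W) :
    (lm K v).eRank = (finrank K (span K (v '' Set.univ)) : ℕ) := by
  rw [Matroid.eRank_def, lm_E]
  exact lm_eRk K v Set.univ

end Pool.Agent.H.MP_60a1a2_co.Lp
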