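import Pool.Agent.H.MP_60a1a2_co.Lp.Def

/-!
# Vector matroids: linear maps, restrictions

The finished proof for the field with two elements is in Lb/LmB.lean (adapt it: signs instead of
characteristic 2). PROOF: as there.
-/

set_option autoImplicit false

open Matroid Module Submodule

namespace Pool.Agent.H.MP_60a1a2_co.Lp

variable (K : Type) [Field K] {E : Type} [Finite E] {W : Type} [AddCommGroup W] [Module K W]

theorem lm_inj {W' : Type} [AddCommGroup W'] [Module K W'] (v : E → W) (T : W →ₗ[K] W')
    (hT : ∀ x ∈ span K (Set.range v), T x = 0 → x = 0) : lm K (fun e => T (v e)) = lm K v := by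
  refine Matroid.ext_indep rfl fun I _ => ?_
  rw [lm_indep, lm_indep]
  constructor
  · intro h
    exact LinearIndependent.of_comp T h
  · intro h
    refine LinearIndependent.map_injOn h T ?_
    intro x hx y hy hxy
    have hsub : span K (Set.range fun x : I => v x) ≤ span K (Set.range v) := by
      refine span_mono ?_
      rintro _ ⟨a, rfl⟩
      exact ⟨a.1, rfl⟩
    have h1 : x - y ∈ span K (Set.range v) := sub_mem (hsub hx) (hsub hy)
    have h2 : T (x - y) = 0 := by rw [map_sub, hxy, sub_self]
    exact sub_eq_zero.1 (hT _ h1 h2)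

theorem lm_restr {B : Type} [Finite B] (v : E → W) (j : B → E) (hj : Function.Injective j) :
    (lm K v) ＼ (Set.range j)ᶜ = (lm K (fun b => v (j b))).map j hj.injOn := by
  refine Matroid.ext_indep ?_ fun I _ => ?_
  · rw [Matroid.delete_ground, Matroid.map_ground, lm_E, lm_E, Set.image_univ,
      ← Set.compl_eq_univ_sdiff, compl_compl]
  rw [Matroid.delete_indep_iff, Matroid.map_indep_iff, lm_indep]
  constructor
  · rintro ⟨h1, h2⟩
    have h3 : I ⊆ Set.range j := by
      intro x hx
      by_contra hn
      exact Set.disjoint_left.1 h2 hx hn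
    refine ⟨j ⁻¹' I, ?_, (Set.image_preimage_eq_of_subset h3).symm⟩
    rw [lm_indep]
    have h4 : Function.Injective (fun x : (j ⁻¹' I : Set B) => (⟨j x.1, x.2⟩ : I)) := by
      intro x y hxy
      have h5 : j x.1 = j y.1 := congrArg Subtype.val hxy
      exact Subtype.ext (hj h5)
    exact LinearIndependent.comp h1 _ h4
  · rintro ⟨I₀, h1, rfl⟩
    rw [lm_indep] at h1
    refine ⟨LinearIndepOn.image_of_comp j v h1, ?_⟩
    rw [Set.disjoint_left]
    rintro _ ⟨x, -, rfl⟩ hn
    exact hn ⟨x, rfl⟩

end Pool.Agent.H.MP_60a1a2_co.Lp
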