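import Pool.Agent.H.MP_60a1a2_co.Lp.Def

/-!
# Vector matroids: minors

The finished proof for the field with two elements is in Lb/LmC.lean (adapt it: signs instead of
characteristic 2). PROOF: as there.
-/

set_option autoImplicit false

open Matroid Module Submodule

namespace Pool.Agent.H.MP_60a1a2_co.Lp

variable (K : Type) [Field K] {E : Type} [Finite E] {W : Type} [AddCommGroup W] [Module K W]

theorem lm_minor (v : E → W) {N : Matroid E} (h : N ≤m lm K v) :
    ∃ C : Set E, Disjoint N.E C ∧ ∀ I ⊆ N.E,
      N.Indep I ↔ LinearIndepOn K (fun e => (span K (v '' C)).mkQ (v e)) I := by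
  obtain ⟨C, D, -, -, -, rfl⟩ := h.exists_eq_contract_delete_disjoint
  obtain ⟨J, hJ⟩ := (lm K v).exists_isBasis C (by rw [lm_E]; exact Set.subset_univ C)
  have hdj : Disjoint ((lm K v ／ C ＼ D).E) C := by
    rw [delete_ground, contract_ground]
    exact Disjoint.mono_left Set.sdiff_subset Set.disjoint_sdiff_left
  have hdD : Disjoint ((lm K v ／ C ＼ D).E) D := by
    rw [delete_ground]
    exact Set.disjoint_sdiff_left
  refine ⟨C, hdj, fun I hI => ?_⟩
  have hIC : Disjoint C I := (hdj.mono_left hI).symm
  have hID : Disjoint I D := hdD.mono_left hI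
  have hJI : LinearIndepOn K v J := hJ.indep
  have hspan : span K (v '' C) = span K (v '' J) := by
    apply le_antisymm _ (span_mono (Set.image_mono hJ.subset))
    rw [span_le]
    rintro _ ⟨e, he, rfl⟩
    by_cases heJ : e ∈ J
    · exact subset_span ⟨e, heJ, rfl⟩
    · by_contra hn
      have h1 : (lm K v).Indep (insert e J) := (linearIndepOn_insert heJ).2 ⟨hJI, hn⟩
      exact heJ (hJ.mem_of_insert_indep he h1)
  rw [delete_indep_iff, hJ.contract_indep_iff, and_iff_left hIC, and_iff_left hID, lm_indep,
    hspan, Set.union_comm, linearIndepOn_union_iff_quotient (hIC.mono_left hJ.subset),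
    and_iff_right hJI]
  exact Iff.rfl

end Pool.Agent.H.MP_60a1a2_co.Lp
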