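import Pool.Agent.H.MP_60a1a2_co.Lp.Dua
import Pool.Agent.H.MP_60a1a2_co.Lp.LmB
import Pool.Agent.H.MP_60a1a2_co.Lp.Tm

/-!
# The two sides of the glued matroid

The finished proof for the field with two elements is in Lb/Sd.lean (adapt it: signs instead of
characteristic 2). PROOF: as there.
-/

set_option autoImplicit false

open Matroid Module Submodule

namespace Pool.Agent.H.MP_60a1a2_co.Lp

theorem gm_left (K : Type) [Field K] {n N : ℕ} (hN : n + 2 ≤ N) :
    gm K n N ＼ Set.range (Sum.inr : Ed N → Ed N ⊕ Ed N) =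
      (lm K (gv K (N := N))).map Sum.inl Sum.inl_injective.injOn := by
  have h1 : (fun b : Ed N => vec K n N (Sum.inl b)) = fun b => tmap K n N (gv K b) := by
    funext b
    exact (tmap_pv K n N b.1.1 b.1.2).symm
  have h2 : lm K (fun b : Ed N => vec K n N (Sum.inl b)) = lm K (gv K (N := N)) := by
    rw [h1]
    exact lm_inj K (gv K) (tmap K n N) (tmap_inj K hN)
  have h3 := lm_restr K (vec K n N) (Sum.inl : Ed N → Ed N ⊕ Ed N) Sum.inl_injective
  rw [h2, Set.compl_range_inl] at h3
  exact h3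

theorem gm_right (K : Type) [Field K] (n N : ℕ) :
    gm K n N ＼ Set.range (Sum.inl : Ed N → Ed N ⊕ Ed N) =
      ((lm K (gv K (N := N)))✶).map Sum.inr Sum.inr_injective.injOn := by
  have h1 : (fun b : Ed N => vec K n N (Sum.inr b)) =
      fun b => LinearMap.inl K (Bs K N) (Fin N → K) (cv K b) := by
    funext b
    rfl
  have h2 : lm K (fun b : Ed N => vec K n N (Sum.inr b)) = (lm K (gv K (N := N)))✶ := by
    rw [h1, ← lm_cv]
    exact lm_inj K (cv K) (LinearMap.inl K (Bs K N) (Fin N → K)) fun x _ hx => congrArg Prod.fst hx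
  have h3 := lm_restr K (vec K n N) (Sum.inr : Ed N → Ed N ⊕ Ed N) Sum.inr_injective
  rw [h2, Set.compl_range_inr] at h3
  exact h3

end Pool.Agent.H.MP_60a1a2_co.Lp
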